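import Pool.Agent.H48.PM.Good

set_option autoImplicit false

namespace Pool.Agent.H48.PM

open Finset Polynomial

/-- Signed sum over one deleted row. -/
def Wf (z : ℕ → ℚ) (cs : List (ℕ → ℚ)) (U : Finset ℕ) (x : ℚ) : ℚ :=
  ∑ i ∈ U, z i * Rf cs (U.erase i) x

/-- Upper left block: columns cut off below row a. -/
def gl (a : ℕ) (c : ℕ → ℚ) : ℕ → ℚ := fun i => if i < a then c i else 0

/-- Lower right block: columns full above row a. -/
def gr (a : ℕ) (c : ℕ → ℚ) : ℕ → ℚ := fun i => if i < a then 1 else c (i - a)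

theorem gl_01 (a : ℕ) (cs : List (ℕ → ℚ)) (h : ∀ c ∈ cs, ∀ i, c i = 0 ∨ c i = 1) :
    ∀ c ∈ cs.map (gl a), ∀ i, c i = 0 ∨ c i = 1 := by
  intro c hc i
  obtain ⟨d, hd, rfl⟩ := List.mem_map.mp hc
  unfold gl
  split_ifs
  · exact h d hd i
  · left
    rfl

theorem gr_01 (a : ℕ) (cs : List (ℕ → ℚ)) (h : ∀ c ∈ cs, ∀ i, c i = 0 ∨ c i = 1) :
    ∀ c ∈ cs.map (gr a), ∀ i, c i = 0 ∨ c i = 1 := by
  intro c hc i
  obtain ⟨d, hd, rfl⟩ := List.mem_map.mp hc
  unfold gr
  split_ifs
  · right
    rfl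
  · exact h d hd (i - a)

theorem Rf_gl (a : ℕ) (cs : List (ℕ → ℚ)) (V : Finset ℕ) (hV : V ⊆ range a) (x : ℚ) :
    Rf (cs.map (gl a)) V x = Rf cs V x :=
  Rf_congr (gl a) (range a) (fun c i hi => by
    have : i < a := Finset.mem_range.mp hi
    simp [gl, this]) cs V x hV

theorem Rf_gr (a : ℕ) (cs : List (ℕ → ℚ)) (W : Finset ℕ) (x : ℚ) :
    Rf (cs.map (gr a)) (W.map (addLeftEmbedding a)) x = Rf cs W x :=
  Rf_map (addLeftEmbedding a) (gr a) (fun c i => by simp [gr]) cs W x

theorem Rf_block (a : ℕ) (cs1 cs2 : List (ℕ → ℚ)) (V W : Finset ℕ) (hV : V ⊆ range a) (x : ℚ) :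
    Rf (cs1.map (gl a) ++ cs2.map (gr a)) (V ∪ W.map (addLeftEmbedding a)) x
      = Rf cs1 V x * Rf cs2 W (x + V.card - cs1.length) := by
  rw [Rf_append _ _ _ _ x]
  · rw [List.length_map, Rf_gl a cs1 V hV, Rf_gr]
  · rw [Finset.disjoint_left]
    intro i hi hj
    obtain ⟨j, hj, hij⟩ := Finset.mem_map.mp hj
    simp only [addLeftEmbedding_apply] at hij
    have := Finset.mem_range.mp (hV hi)
    omega
  · intro c hc i hi
    obtain ⟨d, hd, rfl⟩ := List.mem_map.mp hc
    obtain ⟨j, hj, hij⟩ := Finset.mem_map.mp hi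
    simp only [addLeftEmbedding_apply] at hij
    have : ¬ i < a := by omega
    simp [gl, this]
  · intro c hc i hi
    obtain ⟨d, hd, rfl⟩ := List.mem_map.mp hc
    have : i < a := Finset.mem_range.mp (hV hi)
    simp [gr, this]

theorem disj_map (a b : ℕ) : Disjoint (range a) ((range b).map (addLeftEmbedding a)) := by
  rw [Finset.disjoint_left]
  intro i hi hj
  obtain ⟨j, hj, hij⟩ := Finset.mem_map.mp hj
  simp only [addLeftEmbedding_apply] at hij
  rw [Finset.mem_range] at hi
  omega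

/-- A board of order n with a half row. -/
def HalfGood (n : ℕ) : Prop :=
  ∃ (cs : List (ℕ → ℚ)) (z : ℕ → ℚ), cs.length = n ∧ (∀ c ∈ cs, ∀ i, c i = 0 ∨ c i = 1) ∧
    (∀ i, z i = 1 ∨ z i = -1) ∧
    (∀ x, Wf z cs (range n) x = -(1 / 2) * (Rf cs (range n) x - Rf cs (range n) (x - 1))) ∧
    Rf cs (range n) (-1) = 1

theorem halfGood_add (a b : ℕ) (ha : HalfGood a) (hb : HalfGood b) : HalfGood (a + b) := by
  obtain ⟨cs1, z1, l1, h1, s1, w1, v1⟩ := ha
  obtain ⟨cs2, z2, l2, h2, s2, w2, v2⟩ := hb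
  have hR : ∀ x, Rf (cs1.map (gl a) ++ cs2.map (gr a)) (range (a + b)) x
      = Rf cs1 (range a) x * Rf cs2 (range b) x := by
    intro x
    rw [Finset.range_add_eq_union, Rf_block a cs1 cs2 _ _ (Finset.Subset.refl _), l1,
      Finset.card_range]
    congr 2
    ring
  refine ⟨cs1.map (gl a) ++ cs2.map (gr a), fun i => if i < a then z1 i else z2 (i - a),
    ?_, ?_, ?_, ?_, ?_⟩
  · rw [List.length_append, List.length_map, List.length_map, l1, l2]
  · intro c hc i
    rcases List.mem_append.mp hc with hc | hc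
    · exact gl_01 a cs1 h1 c hc i
    · exact gr_01 a cs2 h2 c hc i
  · intro i
    by_cases hi : i < a
    · simp only [hi, if_true]
      exact s1 i
    · simp only [hi, if_false]
      exact s2 (i - a)
  · intro x
    rw [hR, hR]
    unfold Wf
    rw [Finset.range_add_eq_union, Finset.sum_union (disj_map a b), Finset.sum_map]
    have e1 : ∀ i ∈ range a, (if i < a then z1 i else z2 (i - a)) *
        Rf (cs1.map (gl a) ++ cs2.map (gr a))
          ((range a ∪ (range b).map (addLeftEmbedding a)).erase i) x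
        = (z1 i * Rf cs1 ((range a).erase i) x) * Rf cs2 (range b) (x - 1) := by
      intro i hi
      have hi2 : i < a := Finset.mem_range.mp hi
      have hiU : i ∉ (range b).map (addLeftEmbedding a) :=
        Finset.disjoint_left.mp (disj_map a b) hi
      rw [Finset.erase_union_distrib, Finset.erase_eq_of_notMem hiU,
        Rf_block a cs1 cs2 _ _ (Finset.erase_subset _ _), card_erase_q hi, l1,
        Finset.card_range, if_pos hi2]
      have e : x + ((a : ℚ) - 1) - a = x - 1 := by ring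
      rw [e]
      ring
    have e2 : ∀ j ∈ range b, (if (addLeftEmbedding a) j < a then z1 ((addLeftEmbedding a) j)
          else z2 ((addLeftEmbedding a) j - a)) *
        Rf (cs1.map (gl a) ++ cs2.map (gr a))
          ((range a ∪ (range b).map (addLeftEmbedding a)).erase ((addLeftEmbedding a) j)) x
        = Rf cs1 (range a) x * (z2 j * Rf cs2 ((range b).erase j) x) := by
      intro j hj
      have hn : ¬ ((addLeftEmbedding a) j < a) := by simp
      have hjm : (addLeftEmbedding a) j ∈ (range b).map (addLeftEmbedding a) :=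
        Finset.mem_map_of_mem _ hj
      have hiU : (addLeftEmbedding a) j ∉ range a := Finset.disjoint_right.mp (disj_map a b) hjm
      rw [Finset.erase_union_distrib, Finset.erase_eq_of_notMem hiU, ← Finset.map_erase,
        Rf_block a cs1 cs2 _ _ (Finset.Subset.refl _), l1, Finset.card_range, if_neg hn]
      have e : x + (a : ℚ) - a = x := by ring
      have e' : (addLeftEmbedding a) j - a = j := by simp
      rw [e, e']
      ring
    rw [Finset.sum_congr rfl e1, Finset.sum_congr rfl e2, ← Finset.sum_mul, ← Finset.mul_sum]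
    have w1x := w1 x
    have w2x := w2 x
    unfold Wf at w1x w2x
    rw [w1x, w2x]
    ring
  · rw [hR, v1, v2, one_mul]

theorem Rf_insert_zero (n : ℕ) (cs : List (ℕ → ℚ)) : (∀ c ∈ cs, c n = 0) →
    ∀ (V : Finset ℕ) (x : ℚ), n ∉ V → Rf cs (insert n V) x = Rf cs V x := by
  induction cs with
  | nil =>
    intro _ V x _
    rfl
  | cons c cs ih =>
    intro h V x hn
    have hcs := ih (fun d hd => h d (List.mem_cons_of_mem _ hd))
    have hc := h c List.mem_cons_self
    rw [Rf_cons, Rf_cons, Finset.sum_insert hn, hc, zero_mul, zero_add, hcs V (x - 1) hn]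
    congr 1
    apply Finset.sum_congr rfl
    intro i hi
    have hne : i ≠ n := fun h => hn (h ▸ hi)
    rw [Finset.erase_insert_of_ne (fun h => hne h.symm),
      hcs _ x (fun h => hn (Finset.mem_of_mem_erase h))]

theorem perm_half (n : ℕ) (h : HalfGood n) :
    ∃ M : Matrix (Fin (n + 1)) (Fin (n + 1)) ℤ, (∀ i j, M i j = 1 ∨ M i j = -1) ∧
      ((M.permanent : ℤ) : ℚ) = (-2) ^ n := by
  obtain ⟨cs, z, l, h01, hz, w, v⟩ := h
  let c0 : ℕ → ℚ := fun i => if i < n then (1 - z i) / 2 else 0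
  have hc0 : ∀ i, c0 i = 0 ∨ c0 i = 1 := by
    intro i
    by_cases hi : i < n
    · simp only [c0, hi, if_true]
      rcases hz i with h1 | h1
      · left
        rw [h1]
        norm_num
      · right
        rw [h1]
        norm_num
    · left
      simp [c0, hi]
  have hcs' := gl_01 n cs h01
  obtain ⟨M, hM, hp⟩ := exists_matrix (n + 1) (c0 :: cs.map (gl n)) (by simp [l]) (by
    intro c hc i
    rcases List.mem_cons.mp hc with rfl | hc
    · exact hc0 i
    · exact hcs' c hc i)
  refine ⟨M, hM, ?_⟩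
  have hlen : (cs.map (gl n)).length = n := by rw [List.length_map, l]
  rw [hp, Pf_cons]
  have e1 : ∀ i ∈ range (n + 1), (1 - 2 * c0 i) * Pf (cs.map (gl n)) ((range (n + 1)).erase i)
      = (-2) ^ n * EE (C (1 - 2 * c0 i) * Rp (cs.map (gl n)) ((range (n + 1)).erase i)) := by
    intro i hi
    rw [Pf_eq EE isE_EE _ _ (by rw [Finset.card_erase_of_mem hi, Finset.card_range, hlen]; simp),
      hlen, ← Polynomial.smul_eq_C_mul, map_smul, smul_eq_mul]
    ring
  rw [Finset.sum_congr rfl e1, ← Finset.mul_sum, ← map_sum]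
  have hQ : ∑ i ∈ range (n + 1), C (1 - 2 * c0 i) * Rp (cs.map (gl n)) ((range (n + 1)).erase i)
      = C (1 / 2) * (Rp cs (range n)).comp (X - 1)
        + (C (1 / 2) * (Rp cs (range n)).comp (X - 1)).comp (X + 1) := by
    apply Polynomial.funext
    intro x
    rw [eval_finsetSum]
    simp only [eval_add, eval_mul, eval_C, eval_comp, eval_sub, eval_X, eval_one, eval_Rp]
    rw [Finset.sum_range_succ]
    have hzero : ∀ c ∈ cs.map (gl n), c n = 0 := by
      intro c hc
      obtain ⟨d, _, rfl⟩ := List.mem_map.mp hc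
      simp [gl]
    have e2 : ∀ i ∈ range n, (1 - 2 * c0 i) *
        Rf (cs.map (gl n)) ((range (n + 1)).erase i) x = z i * Rf cs ((range n).erase i) x := by
      intro i hi
      have hi2 : i < n := Finset.mem_range.mp hi
      have e3 : (range (n + 1)).erase i = insert n ((range n).erase i) := by
        rw [Finset.range_add_one, Finset.erase_insert_of_ne (by omega)]
      rw [e3, Rf_insert_zero n _ hzero _ x (by simp), Rf_gl n cs _ (Finset.erase_subset _ _)]
      simp only [c0, hi2, if_true]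
      ring
    have e4 : (range (n + 1)).erase n = range n := by
      rw [Finset.range_add_one, Finset.erase_insert (by simp)]
    have w' := w x
    unfold Wf at w'
    rw [Finset.sum_congr rfl e2, e4, Rf_gl n cs _ (Finset.Subset.refl _), w']
    have e5 : c0 n = 0 := by simp [c0]
    rw [e5]
    have e6 : x + 1 - 1 = x := by ring
    rw [e6]
    ring
  rw [hQ, map_add, isE_EE]
  simp only [eval_mul, eval_C, eval_comp, eval_sub, eval_X, eval_one, eval_Rp, zero_sub, v]
  norm_num

def LH : List ℕ := [6, 8, 9, 13]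

def zH : ℕ → ℚ := fun i => if i = 0 ∨ i = 3 then 1 else -1

theorem cntH15 : (List.range 5).map (cnt 4 LH 15) = [1, 12, 18, 8, 1] := by
  decide +kernel

theorem cntH14 : (List.range 5).map (cnt 4 LH 14) = [0, 2, 9, 6, 1] := by
  decide +kernel

theorem cntH13 : (List.range 5).map (cnt 4 LH 13) = [0, 5, 12, 7, 1] := by
  decide +kernel

theorem cntH11 : (List.range 5).map (cnt 4 LH 11) = [0, 4, 9, 6, 1] := by
  decide +kernel

theorem cntH7 : (List.range 5).map (cnt 4 LH 7) = [0, 1, 6, 5, 1] := by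
  decide +kernel

theorem Rf_LH (u a0 a1 a2 a3 a4 : ℕ)
    (hc : (List.range 5).map (cnt 4 LH u) = [a0, a1, a2, a3, a4]) (x : ℚ) :
    Rf (LH.map bitc) (mset 4 u) x = a0 + a1 * x + a2 * (x * (x - 1)) +
      a3 * (x * (x - 1) * (x - 2)) + a4 * (x * (x - 1) * (x - 2) * (x - 3)) := by
  have h := Rf_cnt 4 LH u x 5 (by decide)
  simp only [List.range, List.range.loop, List.map_cons, List.map_nil, List.cons.injEq] at hc
  obtain ⟨h0, h1, h2, h3, h4, -⟩ := hc
  rw [h]
  simp only [Finset.sum_range_succ, Finset.sum_range_zero, h0, h1, h2, h3, h4, ff]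
  ring

theorem halfGood4 : HalfGood 4 := by
  have hfull : ∀ x, Rf (LH.map bitc) (range 4) x = x ^ 4 + 2 * x ^ 3 + 5 * x ^ 2 + 4 * x + 1 := by
    intro x
    have h := Rf_LH 15 1 12 18 8 1 cntH15 x
    rw [show mset 4 15 = range 4 from mset_full 4] at h
    rw [h]
    push_cast
    ring
  refine ⟨LH.map bitc, zH, by simp [LH], bitc_01 LH, ?_, ?_, ?_⟩
  · intro i
    unfold zH
    split_ifs
    · left; rfl
    · right; rfl
  · intro x
    rw [hfull, hfull]
    unfold Wf
    have e0 : (range 4).erase 0 = mset 4 14 := by decide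
    have e1 : (range 4).erase 1 = mset 4 13 := by decide
    have e2 : (range 4).erase 2 = mset 4 11 := by decide
    have e3 : (range 4).erase 3 = mset 4 7 := by decide
    have hs : ∀ f : ℕ → ℚ, ∑ i ∈ range 4, f i = f 0 + f 1 + f 2 + f 3 := by
      intro f
      simp [Finset.sum_range_succ]
    rw [hs, e0, e1, e2, e3, Rf_LH 14 0 2 9 6 1 cntH14 x, Rf_LH 13 0 5 12 7 1 cntH13 x,
      Rf_LH 11 0 4 9 6 1 cntH11 x, Rf_LH 7 0 1 6 5 1 cntH7 x]
    simp only [zH]
    norm_num
    ring
  · rw [hfull]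
    norm_num

theorem halfGood_all (k : ℕ) : HalfGood (4 * (k + 1)) := by
  induction k with
  | zero => exact halfGood4
  | succ k ih =>
    have h := halfGood_add (4 * (k + 1)) 4 ih halfGood4
    have e : 4 * (k + 1) + 4 = 4 * (k + 1 + 1) := by ring
    rw [e] at h
    exact h

theorem perm_one_mod_four (k : ℕ) :
    ∃ M : Matrix (Fin (4 * k + 1)) (Fin (4 * k + 1)) ℤ, (∀ i j, M i j = 1 ∨ M i j = -1) ∧
      M.permanent = 2 ^ (4 * k) := by
  rcases Nat.eq_zero_or_pos k with rfl | hk
  · refine ⟨fun _ _ => 1, fun _ _ => Or.inl rfl, ?_⟩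
    decide +kernel
  · obtain ⟨j, rfl⟩ : ∃ j, k = j + 1 := ⟨k - 1, by omega⟩
    obtain ⟨M, hM, hp⟩ := perm_half _ (halfGood_all j)
    refine ⟨M, hM, ?_⟩
    have he : Even (4 * (j + 1)) := ⟨2 * (j + 1), by ring⟩
    rw [he.neg_pow] at hp
    exact_mod_cast hp

end Pool.Agent.H48.PM
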