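import Pool.Agent.H48.PM.Perm

set_option autoImplicit false

namespace Pool.Agent.H48.PM

open Finset Polynomial

theorem pow_dvd_factorial (m : ℕ) : 2 ^ (m - Nat.log 2 (m + 1)) ∣ m.factorial := by
  induction m using Nat.strong_induction_on with
  | _ m ih =>
    rcases Nat.eq_zero_or_pos m with rfl | hpos
    · simp
    · obtain ⟨q, hq⟩ : ∃ q, m = 2 * q ∨ m = 2 * q + 1 := ⟨m / 2, by omega⟩
      have hqm : q < m := by omega
      have h1 : 2 ^ q * q.factorial ∣ m.factorial := by
        have h2 : 2 ^ q * q.factorial ∣ (2 * q).factorial := by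
          rcases Nat.eq_zero_or_pos q with rfl | hq0
          · simp
          · obtain ⟨r, rfl⟩ : ∃ r, q = r + 1 := ⟨q - 1, by omega⟩
            have hf := Nat.factorial_eq_mul_doubleFactorial (2 * r + 1)
            rw [show 2 * r + 1 + 1 = 2 * (r + 1) by ring, Nat.doubleFactorial_two_mul] at hf
            rw [hf]
            exact dvd_mul_right _ _
        exact h2.trans (Nat.factorial_dvd_factorial (by omega))
      have h3 : 2 ^ (q + (q - Nat.log 2 (q + 1))) ∣ m.factorial := by
        rw [pow_add]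
        exact (Nat.mul_dvd_mul_left _ (ih q hqm)).trans h1
      refine (pow_dvd_pow 2 ?_).trans h3
      have hlq : Nat.log 2 (q + 1) ≤ q := by
        have : Nat.log 2 (q + 1) < q + 1 := Nat.log_lt_self 2 (by omega)
        omega
      rcases hq with rfl | rfl
      · have h4 : Nat.log 2 (q + 1) ≤ Nat.log 2 (2 * q + 1) := Nat.log_mono_right (by omega)
        omega
      · have h4 : Nat.log 2 (2 * q + 1 + 1) = Nat.log 2 (q + 1) + 1 := by
          rw [show 2 * q + 1 + 1 = (q + 1) * 2 by ring, Nat.log_mul_base (by norm_num) (by omega)]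
        omega

theorem pow_dvd_term (n m : ℕ) (h : m ≤ n) :
    2 ^ (n - Nat.log 2 (n + 1)) ∣ 2 ^ (n - m) * m.factorial := by
  have h1 : 2 ^ ((n - m) + (m - Nat.log 2 (m + 1))) ∣ 2 ^ (n - m) * m.factorial := by
    rw [pow_add]
    exact Nat.mul_dvd_mul_left _ (pow_dvd_factorial m)
  refine (pow_dvd_pow 2 ?_).trans h1
  have h2 : Nat.log 2 (m + 1) ≤ Nat.log 2 (n + 1) := Nat.log_mono_right (by omega)
  omega

theorem EE_desc (m : ℕ) : (-2) ^ m * EE (descPochhammer ℚ m) = m.factorial := by
  induction m with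
  | zero =>
    have h := isE_one EE isE_EE
    rw [pow_zero] at h
    simp [h]
  | succ m ih =>
    have h1 := isE_EE (descPochhammer ℚ (m + 1))
    have h2 : (descPochhammer ℚ (m + 1)).comp (X + 1)
        = descPochhammer ℚ (m + 1) + ((m : ℚ) + 1) • descPochhammer ℚ m := by
      have h3 : (descPochhammer ℚ (m + 1)).comp (X + 1) = (X + 1) * descPochhammer ℚ m := by
        rw [descPochhammer_succ_left, mul_comp, comp_assoc]
        simp
      rw [h3, descPochhammer_succ_right, Polynomial.smul_eq_C_mul]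
      simp only [map_add, map_one, map_natCast]
      ring
    rw [h2, map_add, map_smul, smul_eq_mul] at h1
    have h4 : (descPochhammer ℚ (m + 1)).eval 0 = 0 := by
      rw [descPochhammer_succ_left]
      simp
    rw [h4] at h1
    rw [Nat.factorial_succ, pow_succ]
    push_cast
    rw [← ih]
    linear_combination (-(-2 : ℚ) ^ m) * h1

/-- Integer combinations of falling factorials of degree at most n. -/
noncomputable def SS (n : ℕ) : Submodule ℤ ℚ[X] :=
  Submodule.span ℤ {P | ∃ m, m ≤ n ∧ P = descPochhammer ℚ m}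

theorem SS_mono (n : ℕ) (P : ℚ[X]) (h : P ∈ SS n) : P ∈ SS (n + 1) := by
  refine Submodule.span_mono ?_ h
  rintro Q ⟨m, hm, rfl⟩
  exact ⟨m, by omega, rfl⟩

theorem SS_step (n : ℕ) (P : ℚ[X]) (h : P ∈ SS n) : X * P.comp (X - 1) ∈ SS (n + 1) := by
  unfold SS at h
  induction h using Submodule.span_induction with
  | mem Q hQ =>
    obtain ⟨m, hm, rfl⟩ := hQ
    rw [← descPochhammer_succ_left]
    exact Submodule.subset_span ⟨m + 1, by omega, rfl⟩
  | zero =>
    simp
  | add P Q _ _ hP hQ =>
    rw [add_comp, mul_add]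
    exact Submodule.add_mem _ hP hQ
  | smul a P _ hP =>
    have e : X * (a • P).comp (X - 1) = a • (X * P.comp (X - 1)) := by
      rw [zsmul_eq_mul, zsmul_eq_mul, mul_comp]
      simp
      ring
    rw [e]
    exact Submodule.smul_mem _ _ hP

theorem Rp_mem (cs : List (ℕ → ℚ)) : (∀ c ∈ cs, ∀ i, c i = 0 ∨ c i = 1) → ∀ U : Finset ℕ,
    Rp cs U ∈ SS cs.length := by
  induction cs with
  | nil =>
    intro _ U
    exact Submodule.subset_span ⟨0, le_refl _, by simp [Rp]⟩
  | cons c cs ih =>
    intro h U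
    have hcs := ih (fun d hd => h d (List.mem_cons_of_mem _ hd))
    have hc := h c List.mem_cons_self
    show (∑ i ∈ U, C (c i) * Rp cs (U.erase i)) + X * (Rp cs U).comp (X - 1)
      ∈ SS (cs.length + 1)
    apply Submodule.add_mem
    · apply Submodule.sum_mem
      intro i _
      rcases hc i with h0 | h1
      · rw [h0]
        simp
      · rw [h1, map_one, one_mul]
        exact SS_mono _ _ (hcs _)
    · exact SS_step _ _ (hcs _)

theorem EE_div (n : ℕ) (P : ℚ[X]) (h : P ∈ SS n) :
    ∃ z : ℤ, (-2) ^ n * EE P = (2 : ℚ) ^ (n - Nat.log 2 (n + 1)) * z := by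
  unfold SS at h
  induction h using Submodule.span_induction with
  | mem Q hQ =>
    obtain ⟨m, hm, rfl⟩ := hQ
    obtain ⟨w, hw⟩ := pow_dvd_term n m hm
    refine ⟨(-1) ^ (n - m) * w, ?_⟩
    have h1 : (-2 : ℚ) ^ n = (-2) ^ (n - m) * (-2) ^ m := by
      rw [← pow_add, Nat.sub_add_cancel hm]
    have h2 : ((2 : ℚ) ^ (n - m) * m.factorial) = 2 ^ (n - Nat.log 2 (n + 1)) * w := by
      exact_mod_cast hw
    rw [h1, mul_assoc, EE_desc, show (-2 : ℚ) = (-1) * 2 by norm_num, mul_pow]
    push_cast
    linear_combination ((-1 : ℚ) ^ (n - m)) * h2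
  | zero => exact ⟨0, by simp⟩
  | add P Q _ _ hP hQ =>
    obtain ⟨a, ha⟩ := hP
    obtain ⟨b, hb⟩ := hQ
    refine ⟨a + b, ?_⟩
    rw [map_add]
    push_cast
    linear_combination ha + hb
  | smul a P _ hP =>
    obtain ⟨b, hb⟩ := hP
    refine ⟨a * b, ?_⟩
    have e : EE (a • P) = a * EE P := by
      rw [map_zsmul, zsmul_eq_mul]
    rw [e]
    push_cast
    linear_combination (a : ℚ) * hb

/-- Every permanent of a sign matrix of order n is divisible by 2^(n - log2 (n+1)). -/
theorem pow_dvd_permanent (n : ℕ) (M : Matrix (Fin n) (Fin n) ℤ)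
    (hM : ∀ i j, M i j = 1 ∨ M i j = -1) :
    (2 : ℤ) ^ (n - Nat.log 2 (n + 1)) ∣ M.permanent := by
  classical
  let cs : List (ℕ → ℚ) := List.ofFn (fun j : Fin n => fun i : ℕ =>
    if h : i < n then (if M ⟨i, h⟩ j = 1 then 0 else 1) else 0)
  have hl : cs.length = n := List.length_ofFn
  have h01 : ∀ c ∈ cs, ∀ i, c i = 0 ∨ c i = 1 := by
    intro c hc i
    obtain ⟨j, rfl⟩ := (List.mem_ofFn' _ _).mp hc
    by_cases hi : i < n
    · by_cases hm : M ⟨i, hi⟩ j = 1
      · left
        simp [hi, hm]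
      · right
        simp [hi, hm]
    · left
      simp [hi]
  have hr : (range n) = univ.image (fun i : Fin n => i.val) := by
    ext a
    simp only [Finset.mem_range, Finset.mem_image, Finset.mem_univ, true_and]
    constructor
    · intro h
      exact ⟨⟨a, h⟩, rfl⟩
    · rintro ⟨i, rfl⟩
      exact i.isLt
  have hp : ((M.permanent : ℤ) : ℚ) = Pf cs (range n) := by
    rw [hr, Pf_permanent n cs hl _ Fin.val_injective]
    unfold Matrix.permanent
    push_cast
    apply Finset.sum_congr rfl
    intro σ _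
    apply Finset.prod_congr rfl
    intro i _
    have h1 : cs[i.val]'(by rw [hl]; exact i.isLt) = (fun a : ℕ =>
        if h : a < n then (if M ⟨a, h⟩ i = 1 then (0 : ℚ) else 1) else 0) := by
      simp [cs]
    rw [Matrix.of_apply, h1]
    simp only [Fin.is_lt, dif_pos, Fin.eta]
    rcases hM (σ i) i with h | h
    · rw [h]
      simp
    · rw [h]
      norm_num
  rw [Pf_eq EE isE_EE cs (range n) (by rw [Finset.card_range, hl]), hl] at hp
  have h2 := Rp_mem cs h01 (range n)
  rw [hl] at h2
  obtain ⟨z, hz⟩ := EE_div n _ h2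
  refine ⟨z, ?_⟩
  rw [hz] at hp
  exact_mod_cast hp

end Pool.Agent.H48.PM
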