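import Pool.Agent.H48.PM.Func

set_option autoImplicit false

namespace Pool.Agent.H48.PM

open Finset Polynomial

theorem permanent_succ {R : Type*} [CommRing R] {n : ℕ}
    (M : Matrix (Fin (n + 1)) (Fin (n + 1)) R) :
    M.permanent = ∑ p : Fin (n + 1), M p 0 *
      Matrix.permanent (Matrix.of fun (k j : Fin n) => M (Equiv.swap 0 p k.succ) j.succ) := by
  unfold Matrix.permanent
  rw [← Equiv.sum_comp Equiv.Perm.decomposeFin.symm, Fintype.sum_prod_type]
  apply Finset.sum_congr rfl
  intro p _
  rw [Finset.mul_sum]
  apply Finset.sum_congr rfl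
  intro σ _
  rw [Fin.prod_univ_succ]
  simp [Equiv.Perm.decomposeFin_symm_apply_zero, Equiv.Perm.decomposeFin_symm_apply_succ]

theorem image_erase_swap {n : ℕ} (e : Fin (n + 1) → ℕ) (he : Function.Injective e)
    (p : Fin (n + 1)) :
    (univ.image e).erase (e p) = univ.image (fun k : Fin n => e (Equiv.swap 0 p k.succ)) := by
  ext a
  simp only [Finset.mem_erase, Finset.mem_image, Finset.mem_univ, true_and]
  constructor
  · rintro ⟨h1, q, rfl⟩
    have h2 : Equiv.swap 0 p q ≠ 0 := by
      intro h
      apply h1
      have : q = p := by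
        have h3 := congrArg (Equiv.swap 0 p) h
        rw [Equiv.swap_apply_left, Equiv.swap_apply_self] at h3
        exact h3
      rw [this]
    obtain ⟨k, hk⟩ := Fin.exists_succ_eq.mpr h2
    refine ⟨k, ?_⟩
    rw [hk, Equiv.swap_apply_self]
  · rintro ⟨k, rfl⟩
    refine ⟨?_, _, rfl⟩
    intro h
    have h1 := he h
    have h2 := congrArg (Equiv.swap 0 p) h1
    rw [Equiv.swap_apply_self, Equiv.swap_apply_right] at h2
    exact Fin.succ_ne_zero k h2

theorem Pf_permanent : ∀ (n : ℕ) (cs : List (ℕ → ℚ)) (hl : cs.length = n) (e : Fin n → ℕ),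
    Function.Injective e →
    Pf cs (univ.image e) = Matrix.permanent
      (Matrix.of fun i j : Fin n => 1 - 2 * (cs[j.val]'(by rw [hl]; exact j.isLt)) (e i)) := by
  intro n
  induction n with
  | zero =>
    intro cs hl e _
    have h : cs = [] := List.length_eq_zero_iff.mp hl
    subst h
    simp [Pf, Matrix.permanent]
  | succ n ih =>
    intro cs hl e he
    match cs, hl with
    | c :: cs, hl =>
      have hl' : cs.length = n := by
        rw [List.length_cons] at hl
        omega
      rw [Pf_cons, permanent_succ, Finset.sum_image (fun a _ b _ hab => he hab)]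
      apply Finset.sum_congr rfl
      intro p _
      have hinj : Function.Injective (fun k : Fin n => e (Equiv.swap 0 p k.succ)) := by
        intro a b hab
        have h1 := he hab
        have h2 := (Equiv.swap 0 p).injective h1
        exact Fin.succ_injective _ h2
      rw [image_erase_swap e he p, ih cs hl' _ hinj]
      rfl

theorem exists_matrix (n : ℕ) (cs : List (ℕ → ℚ)) (hl : cs.length = n)
    (h01 : ∀ c ∈ cs, ∀ i, c i = 0 ∨ c i = 1) :
    ∃ M : Matrix (Fin n) (Fin n) ℤ, (∀ i j, M i j = 1 ∨ M i j = -1) ∧
      ((M.permanent : ℤ) : ℚ) = Pf cs (range n) := by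
  classical
  refine ⟨fun i j => if (cs[j.val]'(by rw [hl]; exact j.isLt)) i.val = 1 then -1 else 1, ?_, ?_⟩
  · intro i j
    by_cases h : (cs[j.val]'(by rw [hl]; exact j.isLt)) i.val = 1
    · right
      simp [h]
    · left
      simp [h]
  · have h1 : (range n) = univ.image (fun i : Fin n => i.val) := by
      ext a
      simp only [Finset.mem_range, Finset.mem_image, Finset.mem_univ, true_and]
      constructor
      · intro h
        exact ⟨⟨a, h⟩, rfl⟩
      · rintro ⟨i, rfl⟩
        exact i.isLt
    rw [h1, Pf_permanent n cs hl _ Fin.val_injective]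
    unfold Matrix.permanent
    push_cast
    apply Finset.sum_congr rfl
    intro σ _
    apply Finset.prod_congr rfl
    intro i _
    have hmem : cs[i.val]'(by rw [hl]; exact i.isLt) ∈ cs := List.getElem_mem _
    rw [Matrix.of_apply]
    rcases h01 _ hmem (σ i).val with h | h
    · rw [h]
      simp
    · rw [h]
      simp
      norm_num

end Pool.Agent.H48.PM
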