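import Pool.Agent.H48.PM.Perm

set_option autoImplicit false

namespace Pool.Agent.H48.PM

open Finset

/-- The column with entries the binary digits of c. -/
def bitc (c : ℕ) : ℕ → ℚ := fun i => if c.testBit i then 1 else 0

/-- The set of rows with binary digit 1. -/
def mset (N u : ℕ) : Finset ℕ := (range N).filter (fun i => u.testBit i)

/-- Number of placements of rooks in all but m of the columns. -/
def cnt (N : ℕ) : List ℕ → ℕ → ℕ → ℕ
  | [], _, m => if m = 0 then 1 else 0
  | c :: cs, u, m =>
      (∑ i ∈ range N, if (u.testBit i && c.testBit i) then cnt N cs (u ^^^ 2 ^ i) m else 0) +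
        (match m with
          | 0 => 0
          | k + 1 => cnt N cs u k)

/-- Falling factorials. -/
def ff : ℕ → ℚ → ℚ
  | 0, _ => 1
  | m + 1, x => x * ff m (x - 1)

theorem mset_erase (N u i : ℕ) (h : i ∈ mset N u) :
    (mset N u).erase i = mset N (u ^^^ 2 ^ i) := by
  have hi : u.testBit i = true := (Finset.mem_filter.mp h).2
  ext j
  simp only [mset, Finset.mem_erase, Finset.mem_filter, Finset.mem_range, Nat.testBit_xor,
    Nat.testBit_two_pow]
  by_cases hj : i = j
  · subst hj
    simp [hi]
  · have hj2 : j ≠ i := fun h => hj h.symm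
    simp [hj, hj2]

theorem Rf_cnt (N : ℕ) (L : List ℕ) : ∀ (u : ℕ) (x : ℚ) (K : ℕ), L.length < K →
    Rf (L.map bitc) (mset N u) x = ∑ m ∈ range K, (cnt N L u m : ℚ) * ff m x := by
  induction L with
  | nil =>
    intro u x K hK
    obtain ⟨K, rfl⟩ : ∃ k, K = k + 1 := ⟨K - 1, by simp at hK; omega⟩
    rw [Finset.sum_range_succ']
    simp [Rf, cnt, ff]
  | cons c cs ih =>
    intro u x K hK
    rw [List.length_cons] at hK
    obtain ⟨K, rfl⟩ : ∃ k, K = k + 1 := ⟨K - 1, by omega⟩
    have hA : ∑ i ∈ mset N u, bitc c i * Rf (cs.map bitc) ((mset N u).erase i) x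
        = ∑ m ∈ range (K + 1), ((∑ i ∈ range N, if (u.testBit i && c.testBit i) then
            cnt N cs (u ^^^ 2 ^ i) m else 0 : ℕ) : ℚ) * ff m x := by
      have h1 : ∀ i ∈ mset N u, bitc c i * Rf (cs.map bitc) ((mset N u).erase i) x
          = if c.testBit i then
              ∑ m ∈ range (K + 1), (cnt N cs (u ^^^ 2 ^ i) m : ℚ) * ff m x else 0 := by
        intro i hi
        rw [mset_erase N u i hi, ih _ x (K + 1) (by omega)]
        unfold bitc
        split_ifs <;> simp
      rw [Finset.sum_congr rfl h1]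
      unfold mset
      rw [Finset.sum_filter]
      have h2 : ∀ m ∈ range (K + 1), ((∑ i ∈ range N, if (u.testBit i && c.testBit i) then
            cnt N cs (u ^^^ 2 ^ i) m else 0 : ℕ) : ℚ) * ff m x
          = ∑ i ∈ range N, (if (u.testBit i && c.testBit i) then
            (cnt N cs (u ^^^ 2 ^ i) m : ℚ) * ff m x else 0) := by
        intro m _
        rw [Nat.cast_sum, Finset.sum_mul]
        apply Finset.sum_congr rfl
        intro i _
        split_ifs <;> simp
      rw [Finset.sum_congr rfl h2, Finset.sum_comm]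
      apply Finset.sum_congr rfl
      intro i _
      cases hu : u.testBit i <;> cases hc : c.testBit i <;> simp
    have hB : x * Rf (cs.map bitc) (mset N u) (x - 1)
        = ∑ m ∈ range (K + 1), ((match m with
          | 0 => 0
          | k + 1 => cnt N cs u k : ℕ) : ℚ) * ff m x := by
      rw [Finset.sum_range_succ', ih _ (x - 1) K (by omega), Finset.mul_sum]
      simp only [Nat.cast_zero, zero_mul, add_zero]
      apply Finset.sum_congr rfl
      intro m _
      show _ = (cnt N cs u m : ℚ) * (x * ff m (x - 1))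
      ring
    rw [List.map_cons, Rf_cons, hA, hB, ← Finset.sum_add_distrib]
    apply Finset.sum_congr rfl
    intro m _
    rw [← add_mul]
    congr 1
    rw [← Nat.cast_add]
    rfl

theorem mset_full (N : ℕ) : mset N (2 ^ N - 1) = range N := by
  unfold mset
  apply Finset.filter_true_of_mem
  intro i hi
  rw [Nat.testBit_two_pow_sub_one]
  simpa using hi

def L6 : List ℕ := [32, 16, 56, 52, 46, 13]

def L8 : List ℕ := [128, 192, 224, 240, 120, 252, 182, 145]

theorem cnt6 : (List.range 7).map (cnt 6 L6 63) = [1, 23, 113, 150, 75, 15, 1] := by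
  decide +kernel

theorem cnt8 : (List.range 9).map (cnt 8 L8 255)
    = [1, 116, 1046, 2670, 2735, 1275, 281, 28, 1] := by
  decide +kernel

theorem Rf6 (x : ℚ) : Rf (L6.map bitc) (range 6) x = x ^ 6 + 10 * x ^ 4 + 12 * x ^ 2 + 1 := by
  have h := Rf_cnt 6 L6 63 x 7 (by decide)
  rw [show mset 6 63 = range 6 from mset_full 6] at h
  have hc := cnt6
  simp only [List.range, List.range.loop, List.map_cons, List.map_nil, List.cons.injEq] at hc
  obtain ⟨h0, h1, h2, h3, h4, h5, h6, -⟩ := hc
  rw [h]
  simp only [Finset.sum_range_succ, Finset.sum_range_zero, h0, h1, h2, h3, h4, h5, h6, ff]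
  push_cast
  ring

theorem Rf8 (x : ℚ) : Rf (L8.map bitc) (range 8) x
    = x ^ 8 + 15 * x ^ 6 + 59 * x ^ 4 + 41 * x ^ 2 + 1 := by
  have h := Rf_cnt 8 L8 255 x 9 (by decide)
  rw [show mset 8 255 = range 8 from mset_full 8] at h
  have hc := cnt8
  simp only [List.range, List.range.loop, List.map_cons, List.map_nil, List.cons.injEq] at hc
  obtain ⟨h0, h1, h2, h3, h4, h5, h6, h7, h8, -⟩ := hc
  rw [h]
  simp only [Finset.sum_range_succ, Finset.sum_range_zero, h0, h1, h2, h3, h4, h5, h6, h7, h8, ff]
  push_cast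
  ring

end Pool.Agent.H48.PM
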