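import Pool.Agent.H48.PM.Wave

set_option autoImplicit false

namespace Pool.Agent.H48.PM

open Finset Polynomial

def K4 : List ℕ := [7, 9]

def K8 : List ℕ := [139, 6, 21, 183, 223, 151]

theorem cntK4 : (List.range 3).map (cnt 4 K4 15) = [5, 5, 1] := by
  decide +kernel

theorem cntK8 : (List.range 7).map (cnt 8 K8 255) = [205, 1155, 1743, 1008, 252, 27, 1] := by
  decide +kernel

theorem RfK4 (x : ℚ) : Rf (K4.map bitc) (range 4) x = x ^ 2 + 4 * x + 5 := by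
  have h := Rf_cnt 4 K4 15 x 3 (by decide)
  rw [show mset 4 15 = range 4 from mset_full 4] at h
  have hc := cntK4
  simp only [List.range, List.range.loop, List.map_cons, List.map_nil, List.cons.injEq] at hc
  obtain ⟨h0, h1, h2, -⟩ := hc
  rw [h]
  simp only [Finset.sum_range_succ, Finset.sum_range_zero, h0, h1, h2, ff]
  push_cast
  ring

theorem RfK8 (x : ℚ) : Rf (K8.map bitc) (range 8) x
    = x ^ 6 + 12 * x ^ 5 + 67 * x ^ 4 + 216 * x ^ 3 + 415 * x ^ 2 + 444 * x + 205 := by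
  have h := Rf_cnt 8 K8 255 x 7 (by decide)
  rw [show mset 8 255 = range 8 from mset_full 8] at h
  have hc := cntK8
  simp only [List.range, List.range.loop, List.map_cons, List.map_nil, List.cons.injEq] at hc
  obtain ⟨h0, h1, h2, h3, h4, h5, h6, -⟩ := hc
  rw [h]
  simp only [Finset.sum_range_succ, Finset.sum_range_zero, h0, h1, h2, h3, h4, h5, h6, ff]
  push_cast
  ring

/-- Order 16 l + 7: gain 3. -/
theorem perm_16k7 (l : ℕ) :
    ∃ M : Matrix (Fin (16 * l + 7)) (Fin (16 * l + 7)) ℤ, (∀ i j, M i j = 1 ∨ M i j = -1) ∧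
      M.permanent = 2 ^ (16 * l + 4) := by
  have h := perm_wave 8 (2 * l) 3 4 3 ⟨4, rfl⟩ ⟨l, by ring⟩ rfl rfl (K4.map bitc) rfl
    (bitc_01 K4) (by
    intro x
    rw [RfK4, RfK4]
    push_cast
    ring)
  have e1 : 8 * (2 * l) + 3 + 4 = 16 * l + 7 := by ring
  rw [e1] at h
  obtain ⟨M, hM, hp⟩ := h
  exact ⟨M, hM, by rw [hp]; congr 1⟩

/-- Order 32 l + 15: gain 4. -/
theorem perm_32k15 (l : ℕ) :
    ∃ M : Matrix (Fin (32 * l + 15)) (Fin (32 * l + 15)) ℤ, (∀ i j, M i j = 1 ∨ M i j = -1) ∧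
      M.permanent = 2 ^ (32 * l + 11) := by
  have h := perm_wave 16 (2 * l) 7 8 4 ⟨8, rfl⟩ ⟨l, by ring⟩ rfl rfl (K8.map bitc) rfl
    (bitc_01 K8) (by
    intro x
    rw [RfK8, RfK8]
    push_cast
    ring)
  have e1 : 16 * (2 * l) + 7 + 8 = 32 * l + 15 := by ring
  rw [e1] at h
  obtain ⟨M, hM, hp⟩ := h
  exact ⟨M, hM, by rw [hp]; congr 1⟩

end Pool.Agent.H48.PM
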