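import Pool.Agent.H48.PM.Half

set_option autoImplicit false

namespace Pool.Agent.H48.PM

open Finset Polynomial

/-- A board of order n with a sign column, rook function R and signed sum W. -/
def Blk (n : ℕ) (R W : ℚ → ℚ) : Prop :=
  ∃ (cs : List (ℕ → ℚ)) (z : ℕ → ℚ), cs.length = n ∧ (∀ c ∈ cs, ∀ i, c i = 0 ∨ c i = 1) ∧
    (∀ i, z i = 1 ∨ z i = -1) ∧ (∀ x, Rf cs (range n) x = R x) ∧
    (∀ x, Wf z cs (range n) x = W x)

theorem blk_congr (n : ℕ) (R W R' W' : ℚ → ℚ) (h : Blk n R W) (hR : ∀ x, R x = R' x)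
    (hW : ∀ x, W x = W' x) : Blk n R' W' := by
  obtain ⟨cs, z, l, h01, hz, r, w⟩ := h
  exact ⟨cs, z, l, h01, hz, fun x => (r x).trans (hR x), fun x => (w x).trans (hW x)⟩

theorem blk_comb (a b : ℕ) (R1 W1 R2 W2 : ℚ → ℚ) (ha : Blk a R1 W1) (hb : Blk b R2 W2) :
    Blk (a + b) (fun x => R1 x * R2 x) (fun x => W1 x * R2 (x - 1) + R1 x * W2 x) := by
  obtain ⟨cs1, z1, l1, h1, s1, r1, w1⟩ := ha
  obtain ⟨cs2, z2, l2, h2, s2, r2, w2⟩ := hb
  refine ⟨cs1.map (gl a) ++ cs2.map (gr a), fun i => if i < a then z1 i else z2 (i - a),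
    ?_, ?_, ?_, ?_, ?_⟩
  · rw [List.length_append, List.length_map, List.length_map, l1, l2]
  · intro c hc i
    rcases List.mem_append.mp hc with hc | hc
    · exact gl_01 a cs1 h1 c hc i
    · exact gr_01 a cs2 h2 c hc i
  · intro i
    by_cases hi : i < a
    · simp only [hi, if_true]
      exact s1 i
    · simp only [hi, if_false]
      exact s2 (i - a)
  · intro x
    show _ = R1 x * R2 x
    rw [Finset.range_add_eq_union, Rf_block a cs1 cs2 _ _ (Finset.Subset.refl _), l1,
      Finset.card_range, ← r1, ← r2]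
    congr 2
    ring
  · intro x
    unfold Wf
    rw [Finset.range_add_eq_union, Finset.sum_union (disj_map a b), Finset.sum_map]
    have e1 : ∀ i ∈ range a, (if i < a then z1 i else z2 (i - a)) *
        Rf (cs1.map (gl a) ++ cs2.map (gr a))
          ((range a ∪ (range b).map (addLeftEmbedding a)).erase i) x
        = (z1 i * Rf cs1 ((range a).erase i) x) * Rf cs2 (range b) (x - 1) := by
      intro i hi
      have hi2 : i < a := Finset.mem_range.mp hi
      have hiU : i ∉ (range b).map (addLeftEmbedding a) :=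
        Finset.disjoint_left.mp (disj_map a b) hi
      rw [Finset.erase_union_distrib, Finset.erase_eq_of_notMem hiU,
        Rf_block a cs1 cs2 _ _ (Finset.erase_subset _ _), card_erase_q hi, l1,
        Finset.card_range, if_pos hi2]
      have e : x + ((a : ℚ) - 1) - a = x - 1 := by ring
      rw [e]
      ring
    have e2 : ∀ j ∈ range b, (if (addLeftEmbedding a) j < a then z1 ((addLeftEmbedding a) j)
          else z2 ((addLeftEmbedding a) j - a)) *
        Rf (cs1.map (gl a) ++ cs2.map (gr a))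
          ((range a ∪ (range b).map (addLeftEmbedding a)).erase ((addLeftEmbedding a) j)) x
        = Rf cs1 (range a) x * (z2 j * Rf cs2 ((range b).erase j) x) := by
      intro j hj
      have hn : ¬ ((addLeftEmbedding a) j < a) := by simp
      have hjm : (addLeftEmbedding a) j ∈ (range b).map (addLeftEmbedding a) :=
        Finset.mem_map_of_mem _ hj
      have hiU : (addLeftEmbedding a) j ∉ range a := Finset.disjoint_right.mp (disj_map a b) hjm
      rw [Finset.erase_union_distrib, Finset.erase_eq_of_notMem hiU, ← Finset.map_erase,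
        Rf_block a cs1 cs2 _ _ (Finset.Subset.refl _), l1, Finset.card_range, if_neg hn]
      have e : x + (a : ℚ) - a = x := by ring
      have e' : (addLeftEmbedding a) j - a = j := by simp
      rw [e, e']
      ring
    have w1x := w1 x
    have w2x := w2 x
    unfold Wf at w1x w2x
    rw [Finset.sum_congr rfl e1, Finset.sum_congr rfl e2, ← Finset.sum_mul, ← Finset.mul_sum,
      w1x, w2x, r1, r2]

theorem blk_perm (n : ℕ) (R W : ℚ → ℚ) (h : Blk n R W) (Q : ℚ[X])
    (hQ : ∀ x, Q.eval x = R x + W x) :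
    ∃ M : Matrix (Fin (n + 1)) (Fin (n + 1)) ℤ, (∀ i j, M i j = 1 ∨ M i j = -1) ∧
      ((M.permanent : ℤ) : ℚ) = (-2) ^ n * EE Q := by
  obtain ⟨cs, z, l, h01, hz, r, w⟩ := h
  let c0 : ℕ → ℚ := fun i => if i < n then (1 - z i) / 2 else 0
  have hc0 : ∀ i, c0 i = 0 ∨ c0 i = 1 := by
    intro i
    by_cases hi : i < n
    · simp only [c0, hi, if_true]
      rcases hz i with h1 | h1
      · left
        rw [h1]
        norm_num
      · right
        rw [h1]
        norm_num
    · left
      simp [c0, hi]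
  have hcs' := gl_01 n cs h01
  obtain ⟨M, hM, hp⟩ := exists_matrix (n + 1) (c0 :: cs.map (gl n)) (by simp [l]) (by
    intro c hc i
    rcases List.mem_cons.mp hc with rfl | hc
    · exact hc0 i
    · exact hcs' c hc i)
  refine ⟨M, hM, ?_⟩
  have hlen : (cs.map (gl n)).length = n := by rw [List.length_map, l]
  rw [hp, Pf_cons]
  have e1 : ∀ i ∈ range (n + 1), (1 - 2 * c0 i) * Pf (cs.map (gl n)) ((range (n + 1)).erase i)
      = (-2) ^ n * EE (C (1 - 2 * c0 i) * Rp (cs.map (gl n)) ((range (n + 1)).erase i)) := by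
    intro i hi
    rw [Pf_eq EE isE_EE _ _ (by rw [Finset.card_erase_of_mem hi, Finset.card_range, hlen]; simp),
      hlen, ← Polynomial.smul_eq_C_mul, map_smul, smul_eq_mul]
    ring
  rw [Finset.sum_congr rfl e1, ← Finset.mul_sum, ← map_sum]
  have hS : ∑ i ∈ range (n + 1), C (1 - 2 * c0 i) * Rp (cs.map (gl n)) ((range (n + 1)).erase i)
      = Q := by
    apply Polynomial.funext
    intro x
    rw [eval_finsetSum, hQ]
    simp only [eval_mul, eval_C, eval_Rp]
    rw [Finset.sum_range_succ]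
    have hzero : ∀ c ∈ cs.map (gl n), c n = 0 := by
      intro c hc
      obtain ⟨d, _, rfl⟩ := List.mem_map.mp hc
      simp [gl]
    have e2 : ∀ i ∈ range n, (1 - 2 * c0 i) *
        Rf (cs.map (gl n)) ((range (n + 1)).erase i) x = z i * Rf cs ((range n).erase i) x := by
      intro i hi
      have hi2 : i < n := Finset.mem_range.mp hi
      have e3 : (range (n + 1)).erase i = insert n ((range n).erase i) := by
        rw [Finset.range_add_one, Finset.erase_insert_of_ne (by omega)]
      rw [e3, Rf_insert_zero n _ hzero _ x (by simp), Rf_gl n cs _ (Finset.erase_subset _ _)]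
      simp only [c0, hi2, if_true]
      ring
    have e4 : (range (n + 1)).erase n = range n := by
      rw [Finset.range_add_one, Finset.erase_insert (by simp)]
    have w' := w x
    unfold Wf at w'
    have e5 : c0 n = 0 := by simp [c0]
    rw [Finset.sum_congr rfl e2, e4, Rf_gl n cs _ (Finset.Subset.refl _), w', e5, r]
    ring
  rw [hS]

/-- Reflection of the functional about -1/2. -/
theorem EE_refl (p : ℚ[X]) : EE (p.comp (-1 - X)) = EE p := by
  have h1 := lin_ext EE (fun p => refl EE p) (fun p q => map_add _ p q)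
    (fun a p => by simp only [map_smul, smul_eq_mul])
    (fun n => isE_unique EE (refl EE) isE_EE (isE_refl EE isE_EE) n) p
  simp only [refl_apply] at h1
  have h2 := isE_EE (p.comp (-X))
  have e : (p.comp (-X)).comp (X + 1) = p.comp (-1 - X) := by
    rw [comp_assoc]
    congr 1
    simp
    ring
  rw [e, eval_comp] at h2
  simp only [eval_neg, eval_X, neg_zero] at h2
  linarith

theorem EE_odd_half (p : ℚ[X]) (hp : ∀ x, p.eval (-1 - x) = -p.eval x) : EE p = 0 := by
  have h1 : p.comp (-1 - X) = -p := by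
    apply Polynomial.funext
    intro x
    rw [eval_comp, eval_neg, ← hp]
    simp
  have h2 := EE_refl p
  rw [h1, map_neg] at h2
  linarith

theorem EE_even' (p : ℚ[X]) (hp : ∀ x, p.eval (-x) = p.eval x) : EE p = p.eval 0 := by
  apply EE_even
  apply Polynomial.funext
  intro x
  rw [eval_comp, eval_neg, eval_X, hp]

/-- The rook polynomial of the basic block. -/
def f4 (x : ℚ) : ℚ := x ^ 4 + 2 * x ^ 3 + 5 * x ^ 2 + 4 * x + 1

/-- The same as a polynomial. -/
noncomputable def F4 : ℚ[X] := X ^ 4 + 2 * X ^ 3 + 5 * X ^ 2 + 4 * X + 1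

theorem F4_eval (x : ℚ) : F4.eval x = f4 x := by
  simp only [F4, f4, eval_add, eval_mul, eval_pow, eval_X, eval_one, eval_ofNat]

theorem f4_refl (x : ℚ) : f4 (-1 - x) = f4 x := by
  unfold f4
  ring

theorem blk4 : Blk 4 f4 (fun x => -(1 / 2) * (f4 x - f4 (x - 1))) := by
  have hfull : ∀ x, Rf (LH.map bitc) (range 4) x = f4 x := by
    intro x
    have h := Rf_LH 15 1 12 18 8 1 cntH15 x
    rw [show mset 4 15 = range 4 from mset_full 4] at h
    rw [h, f4]
    push_cast
    ring
  refine ⟨LH.map bitc, zH, by simp [LH], bitc_01 LH, ?_, hfull, ?_⟩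
  · intro i
    unfold zH
    split_ifs
    · left; rfl
    · right; rfl
  · intro x
    unfold Wf
    have e0 : (range 4).erase 0 = mset 4 14 := by decide
    have e1 : (range 4).erase 1 = mset 4 13 := by decide
    have e2 : (range 4).erase 2 = mset 4 11 := by decide
    have e3 : (range 4).erase 3 = mset 4 7 := by decide
    have hs : ∀ f : ℕ → ℚ, ∑ i ∈ range 4, f i = f 0 + f 1 + f 2 + f 3 := by
      intro f
      simp [Finset.sum_range_succ]
    rw [hs, e0, e1, e2, e3, Rf_LH 14 0 2 9 6 1 cntH14 x, Rf_LH 13 0 5 12 7 1 cntH13 x,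
      Rf_LH 11 0 4 9 6 1 cntH11 x, Rf_LH 7 0 1 6 5 1 cntH7 x]
    simp only [zH, f4]
    norm_num
    ring

theorem blk_zero : Blk 0 (fun _ => 1) (fun _ => 0) :=
  ⟨[], fun _ => 1, rfl, fun c hc => absurd hc List.not_mem_nil, fun _ => Or.inl rfl,
    fun _ => rfl, fun x => by simp [Wf]⟩

theorem blk_chain (k : ℕ) : Blk (4 * k) (fun x => f4 x ^ k)
    (fun x => -(1 / 2) * (f4 x ^ k - f4 (x - 1) ^ k)) := by
  induction k with
  | zero => exact blk_congr 0 _ _ _ _ blk_zero (fun x => by simp) (fun x => by simp)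
  | succ k ih =>
    have h := blk_comb _ _ _ _ _ _ ih blk4
    have e : 4 * k + 4 = 4 * (k + 1) := by ring
    rw [e] at h
    exact blk_congr _ _ _ _ _ h (fun x => by ring) (fun x => by ring)

/-- One column, one row, board [0], sign +. -/
theorem blk_one : Blk 1 (fun x => x) (fun x => x) := by
  refine ⟨[fun _ => 0], fun _ => 1, rfl, ?_, fun _ => Or.inl rfl, ?_, ?_⟩
  · intro c hc i
    left
    rw [List.mem_singleton] at hc
    rw [hc]
  · intro x
    simp [Rf]
  · intro x
    simp [Wf, Rf]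

theorem cnt3_7 : (List.range 4).map (cnt 3 [6, 5, 3] 7) = [2, 9, 6, 1] := by
  decide +kernel

theorem cnt3_6 : (List.range 4).map (cnt 3 [6, 5, 3] 6) = [0, 3, 4, 1] := by
  decide +kernel

theorem cnt3_5 : (List.range 4).map (cnt 3 [6, 5, 3] 5) = [0, 3, 4, 1] := by
  decide +kernel

theorem cnt3_3 : (List.range 4).map (cnt 3 [6, 5, 3] 3) = [0, 3, 4, 1] := by
  decide +kernel

theorem Rf_L3 (u a0 a1 a2 a3 : ℕ)
    (hc : (List.range 4).map (cnt 3 [6, 5, 3] u) = [a0, a1, a2, a3]) (x : ℚ) :
    Rf ([6, 5, 3].map bitc) (mset 3 u) x = a0 + a1 * x + a2 * (x * (x - 1)) +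
      a3 * (x * (x - 1) * (x - 2)) := by
  have h := Rf_cnt 3 [6, 5, 3] u x 4 (by decide)
  simp only [List.range, List.range.loop, List.map_cons, List.map_nil, List.cons.injEq] at hc
  obtain ⟨h0, h1, h2, h3, -⟩ := hc
  rw [h]
  simp only [Finset.sum_range_succ, Finset.sum_range_zero, h0, h1, h2, h3, ff]
  ring

/-- Order three: J - I with all signs +. -/
theorem blk_three : Blk 3 (fun x => x ^ 3 + 3 * x ^ 2 + 5 * x + 2)
    (fun x => 3 * x ^ 3 + 3 * x ^ 2 + 3 * x) := by
  refine ⟨[6, 5, 3].map bitc, fun _ => 1, rfl, bitc_01 _, fun _ => Or.inl rfl, ?_, ?_⟩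
  · intro x
    have h := Rf_L3 7 2 9 6 1 cnt3_7 x
    rw [show mset 3 7 = range 3 from mset_full 3] at h
    rw [h]
    push_cast
    ring
  · intro x
    unfold Wf
    have e0 : (range 3).erase 0 = mset 3 6 := by decide
    have e1 : (range 3).erase 1 = mset 3 5 := by decide
    have e2 : (range 3).erase 2 = mset 3 3 := by decide
    have hs : ∀ f : ℕ → ℚ, ∑ i ∈ range 3, f i = f 0 + f 1 + f 2 := by
      intro f
      simp [Finset.sum_range_succ]
    rw [hs, e0, e1, e2, Rf_L3 6 0 3 4 1 cnt3_6 x, Rf_L3 5 0 3 4 1 cnt3_5 x,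
      Rf_L3 3 0 3 4 1 cnt3_3 x]
    push_cast
    ring

end Pool.Agent.H48.PM
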