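import Pool.Agent.H48.PM.Chain
import Pool.Agent.H48.PM.Lower

set_option autoImplicit false

namespace Pool.Agent.H48.PM

open Finset Polynomial

theorem cnt2_3 : (List.range 3).map (cnt 2 [0, 1] 3) = [0, 1, 1] := by
  decide +kernel

theorem cnt2_2 : (List.range 3).map (cnt 2 [0, 1] 2) = [0, 0, 1] := by
  decide +kernel

theorem cnt2_1 : (List.range 3).map (cnt 2 [0, 1] 1) = [0, 1, 1] := by
  decide +kernel

theorem Rf_L2 (u a0 a1 a2 : ℕ)
    (hc : (List.range 3).map (cnt 2 [0, 1] u) = [a0, a1, a2]) (x : ℚ) :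
    Rf ([0, 1].map bitc) (mset 2 u) x = a0 + a1 * x + a2 * (x * (x - 1)) := by
  have h := Rf_cnt 2 [0, 1] u x 3 (by decide)
  simp only [List.range, List.range.loop, List.map_cons, List.map_nil, List.cons.injEq] at hc
  obtain ⟨h0, h1, h2, -⟩ := hc
  rw [h]
  simp only [Finset.sum_range_succ, Finset.sum_range_zero, h0, h1, h2, ff]
  ring

/-- Order two: one cell. -/
theorem blk_two : Blk 2 (fun x => x ^ 2) (fun x => -x) := by
  refine ⟨[0, 1].map bitc, fun i => if i = 0 then 1 else -1, rfl, bitc_01 _, ?_, ?_, ?_⟩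
  · intro i
    by_cases hi : i = 0
    · left
      simp [hi]
    · right
      simp [hi]
  · intro x
    have h := Rf_L2 3 0 1 1 cnt2_3 x
    rw [show mset 2 3 = range 2 from mset_full 2] at h
    rw [h]
    push_cast
    ring
  · intro x
    unfold Wf
    have e0 : (range 2).erase 0 = mset 2 2 := by decide
    have e1 : (range 2).erase 1 = mset 2 1 := by decide
    have hs : ∀ f : ℕ → ℚ, ∑ i ∈ range 2, f i = f 0 + f 1 := by
      intro f
      simp [Finset.sum_range_succ]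
    rw [hs, e0, e1, Rf_L2 2 0 0 1 cnt2_2 x, Rf_L2 1 0 1 1 cnt2_1 x]
    have h1 : (if (1 : ℕ) = 0 then (1 : ℚ) else -1) = -1 := if_neg (by norm_num)
    simp only [h1]
    push_cast
    ring

theorem EE_tel (h : ℚ[X]) : EE (h + h.comp (X + 1)) = 2 * h.eval 0 := by
  rw [map_add]
  exact isE_EE h

theorem f4_neg_one : f4 (-1) = 1 := by
  unfold f4
  norm_num

theorem f4_zero : f4 0 = 1 := by
  unfold f4
  norm_num

theorem perm_4k1 (k : ℕ) :
    ∃ M : Matrix (Fin (4 * k + 1)) (Fin (4 * k + 1)) ℤ, (∀ i j, M i j = 1 ∨ M i j = -1) ∧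
      M.permanent = 2 ^ (4 * k) := by
  let h : ℚ[X] := C (1 / 2) * (F4 ^ k).comp (X - 1)
  have heval : ∀ x, h.eval x = 1 / 2 * f4 (x - 1) ^ k := by
    intro x
    simp only [h, eval_mul, eval_C, eval_comp, eval_pow, eval_sub, eval_X, eval_one, F4_eval]
  obtain ⟨M, hM, hp⟩ := blk_perm _ _ _ (blk_chain k) (h + h.comp (X + 1)) (by
    intro x
    rw [eval_add, eval_comp, eval_add, eval_X, eval_one, heval, heval]
    have e : x + 1 - 1 = x := by ring
    rw [e]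
    ring)
  refine ⟨M, hM, ?_⟩
  rw [EE_tel, heval, zero_sub, f4_neg_one, one_pow] at hp
  have he : Even (4 * k) := ⟨2 * k, by ring⟩
  rw [he.neg_pow] at hp
  have h2 : ((M.permanent : ℤ) : ℚ) = 2 ^ (4 * k) := by
    rw [hp]
    ring
  exact_mod_cast h2

theorem perm_4k2 (k : ℕ) :
    ∃ M : Matrix (Fin (4 * k + 2)) (Fin (4 * k + 2)) ℤ, (∀ i j, M i j = 1 ∨ M i j = -1) ∧
      M.permanent = 2 ^ (4 * k + 1) := by
  let h : ℚ[X] := C (1 / 2) * (X - 1) * (F4 ^ k).comp (X - 1)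
  have heval : ∀ x, h.eval x = 1 / 2 * (x - 1) * f4 (x - 1) ^ k := by
    intro x
    simp only [h, eval_mul, eval_C, eval_comp, eval_pow, eval_sub, eval_X, eval_one, F4_eval]
  let p : ℚ[X] := (X + C (1 / 2)) * F4 ^ k
  have peval : ∀ x, p.eval x = (x + 1 / 2) * f4 x ^ k := by
    intro x
    simp only [p, eval_mul, eval_add, eval_C, eval_pow, eval_X, F4_eval]
  obtain ⟨M, hM, hp⟩ := blk_perm _ _ _ (blk_comb _ _ _ _ _ _ (blk_chain k) blk_one)
    (p + (h + h.comp (X + 1))) (by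
    intro x
    rw [eval_add, eval_add, eval_comp, eval_add, eval_X, eval_one, heval, heval, peval]
    have e : x + 1 - 1 = x := by ring
    rw [e]
    ring)
  refine ⟨M, hM, ?_⟩
  rw [map_add, EE_tel, EE_odd_half p (by
    intro x
    rw [peval, peval, f4_refl]
    ring), heval, zero_sub, f4_neg_one, one_pow] at hp
  have he : Even (4 * k) := ⟨2 * k, by ring⟩
  rw [pow_succ, he.neg_pow] at hp
  have h2 : ((M.permanent : ℤ) : ℚ) = 2 ^ (4 * k + 1) := by
    rw [hp]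
    ring
  exact_mod_cast h2

theorem perm_4k4 (k : ℕ) :
    ∃ M : Matrix (Fin (4 * k + 4)) (Fin (4 * k + 4)) ℤ, (∀ i j, M i j = 1 ∨ M i j = -1) ∧
      M.permanent = 2 ^ (4 * k + 3) := by
  let h : ℚ[X] := C (1 / 2) * ((X - 1) ^ 3 + 3 * (X - 1) ^ 2 + 5 * (X - 1) + 2)
    * (F4 ^ k).comp (X - 1)
  have heval : ∀ x, h.eval x = 1 / 2 * ((x - 1) ^ 3 + 3 * (x - 1) ^ 2 + 5 * (x - 1) + 2)
      * f4 (x - 1) ^ k := by
    intro x
    simp only [h, eval_mul, eval_add, eval_C, eval_comp, eval_pow, eval_sub, eval_X, eval_one,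
      F4_eval, eval_ofNat]
  let p : ℚ[X] := (3 * X ^ 3 + C (9 / 2) * X ^ 2 + C (9 / 2) * X + C (3 / 2)) * F4 ^ k
  have peval : ∀ x, p.eval x = (3 * x ^ 3 + 9 / 2 * x ^ 2 + 9 / 2 * x + 3 / 2) * f4 x ^ k := by
    intro x
    simp only [p, eval_mul, eval_add, eval_C, eval_pow, eval_X, F4_eval, eval_ofNat]
  obtain ⟨M, hM, hp⟩ := blk_perm _ _ _ (blk_comb _ _ _ _ _ _ (blk_chain k) blk_three)
    (p + (h + h.comp (X + 1))) (by
    intro x
    rw [eval_add, eval_add, eval_comp, eval_add, eval_X, eval_one, heval, heval, peval]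
    have e : x + 1 - 1 = x := by ring
    rw [e]
    ring)
  refine ⟨M, hM, ?_⟩
  rw [map_add, EE_tel, EE_odd_half p (by
    intro x
    rw [peval, peval, f4_refl]
    ring), heval, zero_sub, f4_neg_one, one_pow] at hp
  have he : Even (4 * k) := ⟨2 * k, by ring⟩
  rw [pow_add, he.neg_pow] at hp
  have h2 : ((M.permanent : ℤ) : ℚ) = 2 ^ (4 * k + 3) := by
    rw [hp, pow_add]
    ring
  exact_mod_cast h2

theorem perm_8k3 (k : ℕ) :
    ∃ M : Matrix (Fin (8 * k + 3)) (Fin (8 * k + 3)) ℤ, (∀ i j, M i j = 1 ∨ M i j = -1) ∧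
      M.permanent = 2 ^ (8 * k + 1) := by
  let h : ℚ[X] := C (1 / 2) * (X - 1) ^ 2 * ((F4 ^ k).comp (X - 1)) ^ 2
  have heval : ∀ x, h.eval x = 1 / 2 * (x - 1) ^ 2 * (f4 (x - 1) ^ k) ^ 2 := by
    intro x
    simp only [h, eval_mul, eval_C, eval_comp, eval_pow, eval_sub, eval_X, eval_one, F4_eval]
  let p : ℚ[X] := C (-(1 / 2)) * (F4 ^ k * (F4 ^ k).comp (X - 1))
  have peval : ∀ x, p.eval x = -(1 / 2) * (f4 x ^ k * f4 (x - 1) ^ k) := by
    intro x
    simp only [p, eval_mul, eval_C, eval_comp, eval_pow, eval_sub, eval_X, eval_one, F4_eval]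
  obtain ⟨M, hM, hp⟩ := blk_perm _ _ _ (blk_comb _ _ _ _ _ _
    (blk_comb _ _ _ _ _ _ (blk_chain k) blk_two) (blk_chain k))
    (p + (h + h.comp (X + 1))) (by
    intro x
    rw [eval_add, eval_add, eval_comp, eval_add, eval_X, eval_one, heval, heval, peval]
    have e : x + 1 - 1 = x := by ring
    rw [e]
    ring)
  have hn : 4 * k + 2 + 4 * k + 1 = 8 * k + 3 := by ring
  have hn2 : (-2 : ℚ) ^ (4 * k + 2 + 4 * k) = (-2) ^ (8 * k + 2) := by
    congr 1
    ring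
  rw [map_add, EE_tel, EE_even' p (by
    intro x
    rw [peval, peval]
    have e1 : f4 (-x) = f4 (x - 1) := by
      rw [← f4_refl (-x)]
      congr 1
      ring
    have e2 : f4 (-x - 1) = f4 x := by
      rw [← f4_refl x]
      congr 1
      ring
    rw [e1, e2]
    ring), heval, peval, zero_sub, f4_neg_one, f4_zero, one_pow, hn2] at hp
  have he : Even (8 * k + 2) := ⟨4 * k + 1, by ring⟩
  rw [he.neg_pow] at hp
  have h2 : ((M.permanent : ℤ) : ℚ) = 2 ^ (8 * k + 1) := by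
    rw [hp, show 8 * k + 2 = (8 * k + 1) + 1 by ring, pow_succ]
    ring
  have h3 : M.permanent = 2 ^ (8 * k + 1) := by exact_mod_cast h2
  clear hp h2
  revert M
  rw [hn]
  intro M hM h3
  exact ⟨M, hM, h3⟩

/-- The least positive permanent exists, is at least 2^(n - log2 (n+1)) and at most any
positive value. -/
theorem least_of_exact (n : ℕ) (e : ℕ) (h : ∃ M : Matrix (Fin n) (Fin n) ℤ,
    (∀ i j, M i j = 1 ∨ M i j = -1) ∧ M.permanent = 2 ^ e) :
    ∃ m : ℤ, IsLeast {p : ℤ | 0 < p ∧ ∃ M : Matrix (Fin n) (Fin n) ℤ,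
        (∀ i j, M i j = 1 ∨ M i j = -1) ∧ M.permanent = p} m ∧
      2 ^ (n - Nat.log 2 (n + 1)) ≤ m ∧ m ≤ 2 ^ e := by
  obtain ⟨M, hM, hle⟩ := h
  have hpos : 0 < M.permanent := by
    rw [hle]
    positivity
  obtain ⟨m, hm, hmin⟩ := Int.exists_least_of_bdd
    (P := fun p => 0 < p ∧ ∃ M : Matrix (Fin n) (Fin n) ℤ,
      (∀ i j, M i j = 1 ∨ M i j = -1) ∧ M.permanent = p)
    ⟨0, fun z hz => hz.1.le⟩ ⟨M.permanent, hpos, M, hM, rfl⟩
  refine ⟨m, ⟨hm, fun z hz => hmin z hz⟩, ?_,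
    (hmin M.permanent ⟨hpos, M, hM, rfl⟩).trans hle.le⟩
  obtain ⟨h0, N, hN, hNp⟩ := hm
  have hd := pow_dvd_permanent n N hN
  rw [hNp] at hd
  exact Int.le_of_dvd h0 hd

end Pool.Agent.H48.PM
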