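import Mathlib

set_option autoImplicit false

namespace Pool.Agent.H48.PM

open Finset Polynomial

/-- The factorial rook function of a board given by its list of columns. -/
def Rf : List (ℕ → ℚ) → Finset ℕ → ℚ → ℚ
  | [], _, _ => 1
  | c :: cs, U, x => (∑ i ∈ U, c i * Rf cs (U.erase i) x) + x * Rf cs U (x - 1)

theorem Rf_nil (U : Finset ℕ) (x : ℚ) : Rf [] U x = 1 := rfl

theorem Rf_cons (c : ℕ → ℚ) (cs : List (ℕ → ℚ)) (U : Finset ℕ) (x : ℚ) :
    Rf (c :: cs) U x = (∑ i ∈ U, c i * Rf cs (U.erase i) x) + x * Rf cs U (x - 1) := rfl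

/-- The permanent-like sum of the matrix 1 - 2 B. -/
def Pf : List (ℕ → ℚ) → Finset ℕ → ℚ
  | [], _ => 1
  | c :: cs, U => ∑ i ∈ U, (1 - 2 * c i) * Pf cs (U.erase i)

theorem Pf_cons (c : ℕ → ℚ) (cs : List (ℕ → ℚ)) (U : Finset ℕ) :
    Pf (c :: cs) U = ∑ i ∈ U, (1 - 2 * c i) * Pf cs (U.erase i) := rfl

theorem card_erase_q {U : Finset ℕ} {i : ℕ} (hi : i ∈ U) :
    ((U.erase i).card : ℚ) = U.card - 1 := by
  have h := Finset.card_erase_add_one hi
  have h2 : ((U.erase i).card : ℚ) + 1 = U.card := by exact_mod_cast h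
  linarith

theorem Rf_sum (cs : List (ℕ → ℚ)) : ∀ (U : Finset ℕ) (x : ℚ),
    ∑ i ∈ U, Rf cs (U.erase i) x
      = ((U.card : ℚ) - cs.length + x) * Rf cs U x - x * Rf cs U (x - 1) := by
  induction cs with
  | nil =>
    intro U x
    simp [Rf]
  | cons c cs ih =>
    intro U x
    have h1 : ∑ i ∈ U, Rf (c :: cs) (U.erase i) x
        = (∑ i ∈ U, ∑ j ∈ U.erase i, c j * Rf cs ((U.erase i).erase j) x)
          + x * ∑ i ∈ U, Rf cs (U.erase i) (x - 1) := by
      rw [Finset.mul_sum, ← Finset.sum_add_distrib]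
      rfl
    have h2 : (∑ i ∈ U, ∑ j ∈ U.erase i, c j * Rf cs ((U.erase i).erase j) x)
        = ∑ j ∈ U, ∑ i ∈ U.erase j, c j * Rf cs ((U.erase j).erase i) x := by
      rw [Finset.sum_comm' (t' := U) (s' := fun j => U.erase j)]
      · apply Finset.sum_congr rfl
        intro j hj
        apply Finset.sum_congr rfl
        intro i hi
        rw [Finset.erase_right_comm]
      · intro i j
        simp only [Finset.mem_erase]
        constructor
        · rintro ⟨a, b, c⟩
          exact ⟨⟨fun h => b h.symm, a⟩, c⟩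
        · rintro ⟨⟨a, b⟩, c⟩
          exact ⟨b, fun h => a h.symm, c⟩
    have h3 : ∀ j ∈ U, ∑ i ∈ U.erase j, c j * Rf cs ((U.erase j).erase i) x
        = ((U.card : ℚ) - 1 - cs.length + x) * (c j * Rf cs (U.erase j) x)
          - x * (c j * Rf cs (U.erase j) (x - 1)) := by
      intro j hj
      rw [← Finset.mul_sum, ih, card_erase_q hj]
      ring
    rw [h1, h2, Finset.sum_congr rfl h3, Finset.sum_sub_distrib, ← Finset.mul_sum,
      ← Finset.mul_sum, ih]
    simp only [Rf_cons, List.length_cons]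
    push_cast
    ring

theorem Rf_full (cs : List (ℕ → ℚ)) : ∀ (V U : Finset ℕ) (x : ℚ), Disjoint V U →
    (∀ c ∈ cs, ∀ i ∈ V, c i = 1) → Rf cs (V ∪ U) x = Rf cs U (x + V.card) := by
  induction cs with
  | nil =>
    intro V U x _ _
    rfl
  | cons c cs ih =>
    intro V U x hd h1
    have hcs : ∀ c ∈ cs, ∀ i ∈ V, c i = 1 := fun d hdm => h1 d (List.mem_cons_of_mem _ hdm)
    have hc : ∀ i ∈ V, c i = 1 := h1 c List.mem_cons_self
    rw [Rf_cons, Finset.sum_union hd, Rf_cons]
    have hV : ∀ i ∈ V, c i * Rf cs ((V ∪ U).erase i) x = Rf cs U (x + V.card - 1) := by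
      intro i hi
      have hiU : i ∉ U := Finset.disjoint_left.mp hd hi
      have e1 : (V ∪ U).erase i = V.erase i ∪ U := by
        rw [Finset.erase_union_distrib, Finset.erase_eq_of_notMem hiU]
      rw [hc i hi, one_mul, e1, ih (V.erase i) U x (Finset.disjoint_of_subset_left
        (Finset.erase_subset _ _) hd)
        (fun d hdm j hj => hcs d hdm j (Finset.mem_of_mem_erase hj)), card_erase_q hi]
      congr 1
      ring
    have hU : ∀ i ∈ U, c i * Rf cs ((V ∪ U).erase i) x
        = c i * Rf cs (U.erase i) (x + V.card) := by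
      intro i hi
      have hiV : i ∉ V := Finset.disjoint_right.mp hd hi
      have e1 : (V ∪ U).erase i = V ∪ U.erase i := by
        rw [Finset.erase_union_distrib, Finset.erase_eq_of_notMem hiV]
      rw [e1, ih V (U.erase i) x (Finset.disjoint_of_subset_right
        (Finset.erase_subset _ _) hd) hcs]
    rw [Finset.sum_congr rfl hV, Finset.sum_congr rfl hU, ih V U (x - 1) hd hcs,
      Finset.sum_const, nsmul_eq_mul]
    have e2 : x - 1 + (V.card : ℚ) = x + V.card - 1 := by ring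
    rw [e2]
    ring

theorem Rf_append (cs2 : List (ℕ → ℚ)) (cs1 : List (ℕ → ℚ)) :
    ∀ (U1 U2 : Finset ℕ) (x : ℚ), Disjoint U1 U2 →
    (∀ c ∈ cs1, ∀ i ∈ U2, c i = 0) → (∀ c ∈ cs2, ∀ i ∈ U1, c i = 1) →
    Rf (cs1 ++ cs2) (U1 ∪ U2) x = Rf cs1 U1 x * Rf cs2 U2 (x + U1.card - cs1.length) := by
  induction cs1 with
  | nil =>
    intro U1 U2 x hd _ h1
    rw [List.nil_append, Rf_full cs2 U1 U2 x hd h1, Rf_nil, one_mul]
    simp
  | cons c cs ih =>
    intro U1 U2 x hd h0 h1
    have hcs : ∀ c ∈ cs, ∀ i ∈ U2, c i = 0 := fun d hdm => h0 d (List.mem_cons_of_mem _ hdm)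
    have hc : ∀ i ∈ U2, c i = 0 := h0 c List.mem_cons_self
    rw [List.cons_append, Rf_cons, Finset.sum_union hd]
    have hV : ∀ i ∈ U1, c i * Rf (cs ++ cs2) ((U1 ∪ U2).erase i) x
        = (c i * Rf cs (U1.erase i) x) * Rf cs2 U2 (x + U1.card - (cs.length + 1)) := by
      intro i hi
      have hiU : i ∉ U2 := Finset.disjoint_left.mp hd hi
      have e1 : (U1 ∪ U2).erase i = U1.erase i ∪ U2 := by
        rw [Finset.erase_union_distrib, Finset.erase_eq_of_notMem hiU]
      rw [e1, ih (U1.erase i) U2 x (Finset.disjoint_of_subset_left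
        (Finset.erase_subset _ _) hd) hcs
        (fun d hdm j hj => h1 d hdm j (Finset.mem_of_mem_erase hj)), card_erase_q hi]
      have e3 : x + ((U1.card : ℚ) - 1) - cs.length = x + U1.card - (cs.length + 1) := by ring
      rw [e3]
      ring
    have hU : ∀ i ∈ U2, c i * Rf (cs ++ cs2) ((U1 ∪ U2).erase i) x = 0 := by
      intro i hi
      rw [hc i hi, zero_mul]
    rw [Finset.sum_congr rfl hV, Finset.sum_congr rfl hU, ih U1 U2 (x - 1) hd hcs h1,
      Finset.sum_const_zero, ← Finset.sum_mul, Rf_cons]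
    have e2 : x - 1 + (U1.card : ℚ) - cs.length = x + U1.card - (cs.length + 1) := by ring
    rw [e2]
    simp only [List.length_cons]
    push_cast
    ring

theorem Rf_map (f : ℕ ↪ ℕ) (g : (ℕ → ℚ) → (ℕ → ℚ)) (hg : ∀ c i, g c (f i) = c i)
    (cs : List (ℕ → ℚ)) : ∀ (U : Finset ℕ) (x : ℚ),
    Rf (cs.map g) (U.map f) x = Rf cs U x := by
  induction cs with
  | nil =>
    intro U x
    rfl
  | cons c cs ih =>
    intro U x
    rw [List.map_cons, Rf_cons, Rf_cons, Finset.sum_map, ih]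
    congr 1
    apply Finset.sum_congr rfl
    intro i _
    rw [hg, ← Finset.map_erase, ih]

theorem Rf_congr (g : (ℕ → ℚ) → (ℕ → ℚ)) (V : Finset ℕ) (hg : ∀ c, ∀ i ∈ V, g c i = c i)
    (cs : List (ℕ → ℚ)) : ∀ (U : Finset ℕ) (x : ℚ), U ⊆ V →
    Rf (cs.map g) U x = Rf cs U x := by
  induction cs with
  | nil =>
    intro U x _
    rfl
  | cons c cs ih =>
    intro U x hUV
    rw [List.map_cons, Rf_cons, Rf_cons, ih U (x - 1) hUV]
    congr 1
    apply Finset.sum_congr rfl
    intro i hi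
    rw [hg c i (hUV hi), ih (U.erase i) x ((Finset.erase_subset _ _).trans hUV)]

/-- The rook function as a polynomial. -/
noncomputable def Rp : List (ℕ → ℚ) → Finset ℕ → ℚ[X]
  | [], _ => 1
  | c :: cs, U => (∑ i ∈ U, C (c i) * Rp cs (U.erase i)) + X * (Rp cs U).comp (X - 1)

theorem eval_Rp (cs : List (ℕ → ℚ)) : ∀ (U : Finset ℕ) (x : ℚ),
    (Rp cs U).eval x = Rf cs U x := by
  induction cs with
  | nil =>
    intro U x
    simp [Rp, Rf]
  | cons c cs ih =>
    intro U x
    simp [Rp, Rf, eval_finsetSum, ih]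

theorem Rp_sum (cs : List (ℕ → ℚ)) (U : Finset ℕ) (h : U.card = cs.length + 1) :
    ∑ i ∈ U, Rp cs (U.erase i) = (X + 1) * Rp cs U - X * (Rp cs U).comp (X - 1) := by
  apply Polynomial.funext
  intro x
  rw [eval_finsetSum]
  simp only [eval_Rp, eval_sub, eval_mul, eval_add, eval_X, eval_one, eval_comp]
  rw [Rf_sum, h]
  push_cast
  ring

/-- The defining property of the functional. -/
def IsE (E : ℚ[X] →ₗ[ℚ] ℚ) : Prop :=
  ∀ h : ℚ[X], E h + E (h.comp (X + 1)) = 2 * h.eval 0

theorem Pf_eq (E : ℚ[X] →ₗ[ℚ] ℚ) (hE : IsE E) (cs : List (ℕ → ℚ)) : ∀ (U : Finset ℕ),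
    U.card = cs.length → Pf cs U = (-2) ^ cs.length * E (Rp cs U) := by
  induction cs with
  | nil =>
    intro U _
    have h1 := hE 1
    simp only [one_comp, eval_one] at h1
    have h2 : E 1 = 1 := by linarith
    simp [Pf, Rp, h2]
  | cons c cs ih =>
    intro U hU
    rw [List.length_cons] at hU
    have h1 : ∀ i ∈ U, (1 - 2 * c i) * Pf cs (U.erase i)
        = (-2) ^ cs.length * E (Rp cs (U.erase i))
          - 2 * (-2) ^ cs.length * (c i * E (Rp cs (U.erase i))) := by
      intro i hi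
      have h2 : (U.erase i).card = cs.length := by
        rw [Finset.card_erase_of_mem hi, hU]
        simp
      rw [ih _ h2]
      ring
    rw [Pf_cons, Finset.sum_congr rfl h1, Finset.sum_sub_distrib, ← Finset.mul_sum,
      ← Finset.mul_sum, ← map_sum, Rp_sum cs U hU]
    have h3 : E (Rp (c :: cs) U) = (∑ i ∈ U, c i * E (Rp cs (U.erase i)))
        + E (X * (Rp cs U).comp (X - 1)) := by
      show E ((∑ i ∈ U, C (c i) * Rp cs (U.erase i)) + X * (Rp cs U).comp (X - 1)) = _
      rw [map_add, map_sum]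
      congr 1
      apply Finset.sum_congr rfl
      intro i _
      rw [← Polynomial.smul_eq_C_mul, map_smul, smul_eq_mul]
    have h4 := hE (X * (Rp cs U).comp (X - 1))
    have h5 : (X * (Rp cs U).comp (X - 1)).comp (X + 1) = (X + 1) * Rp cs U := by
      rw [mul_comp, comp_assoc]
      simp
    rw [h5] at h4
    simp only [eval_mul, eval_X, zero_mul, mul_zero] at h4
    rw [h3, map_sub, List.length_cons, pow_succ]
    linear_combination ((-2 : ℚ) ^ cs.length) * h4

end Pool.Agent.H48.PM
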