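import Pool.Agent.H48.PM.Close

set_option autoImplicit false

namespace Pool.Agent.H48.PM

open Finset Polynomial

/-! ### Lists of columns given by a matrix -/

/-- The columns a, a + 1, ..., a + k - 1 of the matrix f. -/
def ls (f : ℕ → ℕ → ℚ) : ℕ → ℕ → List (ℕ → ℚ)
  | _, 0 => []
  | a, k + 1 => f a :: ls f (a + 1) k

theorem ls_zero (f : ℕ → ℕ → ℚ) (a : ℕ) : ls f a 0 = [] := rfl

theorem ls_succ (f : ℕ → ℕ → ℚ) (a k : ℕ) : ls f a (k + 1) = f a :: ls f (a + 1) k := rfl

theorem ls_length (f : ℕ → ℕ → ℚ) (k : ℕ) : ∀ a, (ls f a k).length = k := by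
  induction k with
  | zero => intro a; rfl
  | succ k ih =>
    intro a
    rw [ls_succ, List.length_cons, ih]

theorem ls_mem (f : ℕ → ℕ → ℚ) (k : ℕ) : ∀ a, ∀ c ∈ ls f a k, ∃ j, a ≤ j ∧ c = f j := by
  induction k with
  | zero =>
    intro a c hc
    simp [ls] at hc
  | succ k ih =>
    intro a c hc
    rw [ls_succ] at hc
    rcases List.mem_cons.mp hc with rfl | hc
    · exact ⟨a, le_refl _, rfl⟩
    · obtain ⟨j, hj, rfl⟩ := ih (a + 1) c hc
      exact ⟨j, by omega, rfl⟩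

/-- Shift of rows and columns by s. -/
theorem Rf_ls_shift (s : ℕ) (f : ℕ → ℕ → ℚ) (hf : ∀ j i, f (s + j) (s + i) = f j i) (k : ℕ) :
    ∀ (a : ℕ) (U : Finset ℕ) (x : ℚ),
    Rf (ls f (s + a) k) (U.map (addLeftEmbedding s)) x = Rf (ls f a k) U x := by
  induction k with
  | zero =>
    intro a U x
    rfl
  | succ k ih =>
    intro a U x
    have ih' := ih (a + 1)
    rw [← add_assoc] at ih'
    rw [ls_succ, ls_succ, Rf_cons, Rf_cons, Finset.sum_map, ih']
    congr 1
    apply Finset.sum_congr rfl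
    intro i _
    rw [← Finset.map_erase, ih']
    congr 1
    exact hf a i

theorem range_split (s k : ℕ) :
    range (s + k) = range s ∪ (range k).map (addLeftEmbedding s) :=
  Finset.range_add_eq_union s k

theorem mem_mapL (s i : ℕ) (U : Finset ℕ) :
    i ∈ U.map (addLeftEmbedding s) ↔ s ≤ i ∧ i - s ∈ U := by
  rw [Finset.mem_map]
  constructor
  · rintro ⟨j, hj, rfl⟩
    simp only [addLeftEmbedding_apply]
    exact ⟨by omega, by simpa using hj⟩
  · rintro ⟨h1, h2⟩
    refine ⟨i - s, h2, ?_⟩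
    simp only [addLeftEmbedding_apply]
    omega

/-- A full first row. -/
theorem Rf_row0 (f : ℕ → ℕ → ℚ) (a k : ℕ) (h0 : ∀ j, a ≤ j → f j 0 = 1) (s : ℕ) (hs : 1 ≤ s)
    (U : Finset ℕ) (x : ℚ) :
    Rf (ls f a k) ({0} ∪ U.map (addLeftEmbedding s)) x
      = Rf (ls f a k) (U.map (addLeftEmbedding s)) (x + 1) := by
  rw [Rf_full _ {0} _ x]
  · simp
  · rw [Finset.disjoint_left]
    intro i hi hj
    rw [Finset.mem_singleton] at hi
    subst hi
    have := (mem_mapL s 0 U).mp hj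
    omega
  · intro c hc i hi
    rw [Finset.mem_singleton] at hi
    subst hi
    obtain ⟨j, hj, rfl⟩ := ls_mem f k a c hc
    exact h0 j hj

theorem Rf_single (c : ℕ → ℚ) (cs : List (ℕ → ℚ)) (U : Finset ℕ) (x : ℚ) (r : ℕ) (hr : r ∈ U)
    (hc1 : c r = 1) (hc0 : ∀ i ∈ U, i ≠ r → c i = 0) :
    Rf (c :: cs) U x = Rf cs (U.erase r) x + x * Rf cs U (x - 1) := by
  rw [Rf_cons]
  congr 1
  rw [Finset.sum_eq_single r]
  · rw [hc1, one_mul]
  · intro i hi hne
    rw [hc0 i hi hne, zero_mul]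
  · intro h
    exact absurd hr h

/-! ### The first board -/

/-- Unit upper triangular with the superdiagonal removed. -/
def Cc (j i : ℕ) : ℚ := if i = j ∨ i + 2 ≤ j then 1 else 0

theorem Cc_shift (s j i : ℕ) : Cc (s + j) (s + i) = Cc j i := by
  unfold Cc
  have h : (s + i = s + j ∨ s + i + 2 ≤ s + j) ↔ (i = j ∨ i + 2 ≤ j) := by omega
  simp only [h]

theorem Cc_01 (j i : ℕ) : Cc j i = 0 ∨ Cc j i = 1 := by
  unfold Cc
  split_ifs
  · right; rfl
  · left; rfl

def cR (k : ℕ) (x : ℚ) : ℚ := Rf (ls Cc 0 k) (range k) x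

def cX (k : ℕ) (x : ℚ) : ℚ := Rf (ls Cc 1 k) (range (k + 1)) x

theorem cR_zero (x : ℚ) : cR 0 x = 1 := rfl

theorem cX_zero (x : ℚ) : cX 0 x = 1 := rfl

theorem erase_range_zero (k : ℕ) :
    (range (k + 1)).erase 0 = (range k).map (addLeftEmbedding 1) := by
  ext i
  rw [mem_mapL, Finset.mem_erase, Finset.mem_range, Finset.mem_range]
  omega

theorem erase_range_one (k : ℕ) :
    (range (k + 2)).erase 1 = {0} ∪ (range k).map (addLeftEmbedding 2) := by
  ext i
  rw [Finset.mem_union, mem_mapL, Finset.mem_erase, Finset.mem_range, Finset.mem_range,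
    Finset.mem_singleton]
  omega

theorem range_zero_map (k : ℕ) :
    range (k + 1) = {0} ∪ (range k).map (addLeftEmbedding 1) := by
  ext i
  rw [Finset.mem_union, mem_mapL, Finset.mem_range, Finset.mem_range, Finset.mem_singleton]
  omega

theorem cR_succ (k : ℕ) (x : ℚ) : cR (k + 1) x = cR k x + x * cX k (x - 1) := by
  unfold cR cX
  rw [ls_succ, Rf_single (Cc 0) _ _ x 0 (by simp) (by simp [Cc]) (by
    intro i _ hne
    simp [Cc, hne])]
  rw [erase_range_zero]
  have h := Rf_ls_shift 1 Cc (Cc_shift 1) k 0 (range k) x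
  rw [h]

theorem cX_succ (k : ℕ) (x : ℚ) : cX (k + 1) x = cR k (x + 1) + x * cX k x := by
  unfold cR cX
  rw [ls_succ, Rf_single (Cc 1) _ _ x 1 (by simp) (by simp [Cc]) (by
    intro i _ hne
    have h : ¬ (i = 1 ∨ i + 2 ≤ 1) := by omega
    simp only [Cc, h, if_false])]
  have hrow : ∀ j, 1 + 1 ≤ j → Cc j 0 = 1 := by
    intro j hj
    have h : (0 = j ∨ 0 + 2 ≤ j) := by omega
    simp only [Cc, h, if_true]
  rw [erase_range_one, Rf_row0 Cc (1 + 1) k hrow 2 (by omega), range_zero_map (k + 1),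
    Rf_row0 Cc (1 + 1) k hrow 1 (by omega), sub_add_cancel]
  have h1 := Rf_ls_shift 2 Cc (Cc_shift 2) k 0 (range k) (x + 1)
  have h2 := Rf_ls_shift 1 Cc (Cc_shift 1) k 1 (range (k + 1)) x
  have e1 : (1 + 1 : ℕ) = 2 + 0 := rfl
  rw [h2]
  rw [e1, h1]

theorem cR_rec (k : ℕ) (x : ℚ) : cR (k + 2) x = x * cR (k + 1) x + cR k x := by
  have h1 := cR_succ (k + 1) x
  have h2 := cX_succ k (x - 1)
  have h3 := cR_succ k x
  rw [sub_add_cancel] at h2
  linear_combination h1 + x * h2 - (x - 1) * h3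

theorem cR_one (x : ℚ) : cR 1 x = x + 1 := by
  rw [cR_succ, cR_zero, cX_zero]
  ring

/-! ### The second board -/

/-- Strictly upper triangular with the subdiagonal. -/
def Ec (j i : ℕ) : ℚ := if i < j ∨ i = j + 1 then 1 else 0

theorem Ec_shift (s j i : ℕ) : Ec (s + j) (s + i) = Ec j i := by
  unfold Ec
  have h : (s + i < s + j ∨ s + i = s + j + 1) ↔ (i < j ∨ i = j + 1) := by omega
  simp only [h]

theorem Ec_01 (j i : ℕ) : Ec j i = 0 ∨ Ec j i = 1 := by
  unfold Ec
  split_ifs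
  · right; rfl
  · left; rfl

def eR (k : ℕ) (x : ℚ) : ℚ := Rf (ls Ec 0 k) (range k) x

def eZ (k : ℕ) (x : ℚ) : ℚ := Rf (ls Ec 1 (k + 1)) ((range k).map (addLeftEmbedding 2)) x

theorem eR_zero (x : ℚ) : eR 0 x = 1 := rfl

theorem eR_one (x : ℚ) : eR 1 x = x := by
  simp [eR, ls, Rf, Ec]

theorem eZ_zero (x : ℚ) : eZ 0 x = x := by
  simp [eZ, ls, Rf]

theorem Ec_row (j : ℕ) (hj : 1 ≤ j) : Ec j 0 = 1 := by
  have h : (0 < j ∨ 0 = j + 1) := by omega
  simp only [Ec, h, if_true]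

theorem eR_two (k : ℕ) (x : ℚ) : eR (k + 2) x = eZ k (x + 1) + x * eR (k + 1) x := by
  unfold eR eZ
  rw [ls_succ, Rf_single (Ec 0) _ _ x 1 (by simp) (by simp [Ec]) (by
    intro i _ hne
    have h : ¬ (i < 0 ∨ i = 0 + 1) := by omega
    simp only [Ec, h, if_false])]
  rw [erase_range_one, Rf_row0 Ec (0 + 1) (k + 1) (fun j hj => Ec_row j (by omega)) 2 (by omega),
    range_zero_map (k + 1), Rf_row0 Ec (0 + 1) (k + 1) (fun j hj => Ec_row j (by omega)) 1
      (by omega), sub_add_cancel]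
  have h1 := Rf_ls_shift 1 Ec (Ec_shift 1) (k + 1) 0 (range (k + 1)) x
  have e1 : (0 + 1 : ℕ) = 1 + 0 := rfl
  rw [e1, h1]

theorem eZ_succ (k : ℕ) (x : ℚ) : eZ (k + 1) x = eZ k x + x * eR (k + 1) (x - 1) := by
  unfold eR eZ
  rw [ls_succ, Rf_single (Ec 1) _ _ x 2 (by
      rw [mem_mapL]
      simp) (by simp [Ec]) (by
    intro i hi hne
    have hi2 := ((mem_mapL _ _ _).mp hi).1
    have h : ¬ (i < 1 ∨ i = 1 + 1) := by omega
    simp only [Ec, h, if_false])]
  have e1 : ((range (k + 1)).map (addLeftEmbedding 2)).erase 2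
      = ((range k).map (addLeftEmbedding 2)).map (addLeftEmbedding 1) := by
    ext i
    rw [mem_mapL, mem_mapL, Finset.mem_erase, mem_mapL, Finset.mem_range, Finset.mem_range]
    omega
  have h1 := Rf_ls_shift 1 Ec (Ec_shift 1) (k + 1) 1 ((range k).map (addLeftEmbedding 2)) x
  have h2 := Rf_ls_shift 2 Ec (Ec_shift 2) (k + 1) 0 (range (k + 1)) (x - 1)
  have e2 : (1 + 1 : ℕ) = 2 + 0 := rfl
  rw [e1, h1, e2, h2]

theorem eR_rec (k : ℕ) (x : ℚ) : eR (k + 2) x = (x + 1) * eR (k + 1) x + eR k x := by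
  rcases k with _ | k
  · rw [eR_two, eZ_zero, zero_add, eR_one, eR_zero]
    ring
  · have h1 := eR_two (k + 1) x
    have h2 := eZ_succ k (x + 1)
    have h3 := eR_two k x
    rw [add_sub_cancel_right] at h2
    linear_combination h1 + h2 - h3

/-! ### Fibonacci polynomials -/

/-- Fibonacci polynomials. -/
noncomputable def Fb : ℕ → ℚ[X]
  | 0 => 1
  | 1 => X
  | n + 2 => X * Fb (n + 1) + Fb n

noncomputable def Gb : ℕ → ℚ[X]
  | 0 => 0
  | n + 1 => Fb n

theorem Fb_succ (n : ℕ) : Fb (n + 1) = X * Fb n + Gb n := by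
  rcases n with _ | n
  · simp [Fb, Gb]
  · rfl

theorem Gb_succ (n : ℕ) : Gb (n + 1) = Fb n := rfl

theorem Fb_cassini (n : ℕ) : Fb n ^ 2 - X * Fb n * Gb n - Gb n ^ 2 = (-1) ^ n := by
  induction n with
  | zero => simp [Fb, Gb]
  | succ n ih =>
    rw [Fb_succ, Gb_succ, pow_succ (-1 : ℚ[X]) n]
    linear_combination -ih

theorem Fb_parity (n : ℕ) :
    (Fb n).comp (-X) = (-1) ^ n * Fb n ∧ (Gb n).comp (-X) = -((-1) ^ n * Gb n) := by
  induction n with
  | zero => simp [Fb, Gb]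
  | succ n ih =>
    obtain ⟨h1, h2⟩ := ih
    constructor
    · rw [Fb_succ, add_comp, mul_comp, X_comp, h1, h2, pow_succ (-1 : ℚ[X]) n]
      ring
    · rw [Gb_succ, h1, pow_succ (-1 : ℚ[X]) n]
      ring

theorem Fb_sq_even (n : ℕ) : (Fb n ^ 2).comp (-X) = Fb n ^ 2 := by
  rw [pow_comp, (Fb_parity n).1, mul_pow, ← pow_mul, mul_comm n 2, pow_mul]
  simp

theorem cR_Fb (k : ℕ) (x : ℚ) : cR k x = (Fb k).eval x + (Gb k).eval x ∧
    cR (k + 1) x = (Fb (k + 1)).eval x + (Gb (k + 1)).eval x := by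
  induction k with
  | zero =>
    rw [cR_zero, zero_add, cR_one]
    simp [Fb, Gb]
  | succ k ih =>
    refine ⟨ih.2, ?_⟩
    rw [cR_rec, ih.1, ih.2, Fb_succ (k + 1), Gb_succ (k + 1), Gb_succ k, Fb_succ k]
    simp only [eval_add, eval_mul, eval_X]
    ring

theorem eR_Fb (k : ℕ) (x : ℚ) : eR k (x - 1) = (Fb k).eval x - (Gb k).eval x ∧
    eR (k + 1) (x - 1) = (Fb (k + 1)).eval x - (Gb (k + 1)).eval x := by
  induction k with
  | zero =>
    rw [eR_zero, zero_add, eR_one]
    simp [Fb, Gb]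
  | succ k ih =>
    refine ⟨ih.2, ?_⟩
    rw [eR_rec, ih.1, ih.2, Fb_succ (k + 1), Gb_succ (k + 1), Gb_succ k, Fb_succ k]
    simp only [eval_add, eval_mul, eval_X]
    ring

theorem tail_id (m : ℕ) (x : ℚ) :
    eR m (x - 1) * cR (m + 1) x = x * (Fb m).eval x ^ 2 + (-1) ^ m := by
  have h := congrArg (Polynomial.eval x) (Fb_cassini m)
  simp only [eval_sub, eval_mul, eval_pow, eval_X, eval_neg, eval_one] at h
  rw [(eR_Fb m x).1, (cR_Fb m x).2, Fb_succ, Gb_succ]
  simp only [eval_add, eval_mul, eval_X]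
  linear_combination h

/-! ### The chain -/

/-- The tail: 2 m + 1 columns on 2 m + 2 rows. -/
def Tl (m : ℕ) : List (ℕ → ℚ) :=
  (ls Ec 0 m).map (gl m) ++ ((ls Cc 0 (m + 1)).map (gr 1)).map (gr m)

theorem Tl_length (m : ℕ) : (Tl m).length = 2 * m + 1 := by
  unfold Tl
  rw [List.length_append, List.length_map, List.length_map, List.length_map, ls_length, ls_length]
  ring

theorem Tl_01 (m : ℕ) : ∀ c ∈ Tl m, ∀ i, c i = 0 ∨ c i = 1 := by
  intro c hc i
  rcases List.mem_append.mp hc with hc | hc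
  · refine gl_01 m (ls Ec 0 m) ?_ c hc i
    intro d hd i
    obtain ⟨j, _, rfl⟩ := ls_mem Ec m 0 d hd
    exact Ec_01 j i
  · refine gr_01 m _ ?_ c hc i
    refine gr_01 1 _ ?_
    intro d hd i
    obtain ⟨j, _, rfl⟩ := ls_mem Cc (m + 1) 0 d hd
    exact Cc_01 j i

theorem Rf_Tl (m : ℕ) (x : ℚ) : Rf (Tl m) (range (2 * m + 2)) x = eR m x * cR (m + 1) (x + 1) := by
  have e1 : range (2 * m + 2) = range m ∪ (range (m + 2)).map (addLeftEmbedding m) := by
    rw [← range_split]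
    congr 1
    ring
  have e2 : range (m + 2) = range 1 ∪ (range (m + 1)).map (addLeftEmbedding 1) := by
    rw [← range_split]
    congr 1
    ring
  have h1 : ∀ y, Rf ((ls Cc 0 (m + 1)).map (gr 1)) (range (m + 2)) y = cR (m + 1) (y + 1) := by
    intro y
    have h := Rf_block 1 [] (ls Cc 0 (m + 1)) (range 1) (range (m + 1)) (Finset.Subset.refl _) y
    rw [← e2] at h
    simp only [List.map_nil, List.nil_append, Rf_nil, one_mul, Finset.card_range,
      List.length_nil, Nat.cast_one, Nat.cast_zero, sub_zero] at h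
    exact h
  unfold Tl
  rw [e1, Rf_block m _ _ _ _ (Finset.Subset.refl _), Finset.card_range, ls_length, h1]
  have e3 : x + (m : ℚ) - m = x := by ring
  rw [e3]
  rfl

/-- A board with N lines on N - 1 rows whose rook function is odd extends to all orders of the
other parity. -/
theorem perm_chain (A m k : ℕ) (cs : List (ℕ → ℚ)) (hl : cs.length = A + 1)
    (h01 : ∀ c ∈ cs, ∀ i, c i = 0 ∨ c i = 1)
    (hodd : ∀ x, Rf cs (range A) (-x) = -Rf cs (range A) x)
    (hE : EE (Rp cs (range A)) = 1 / 2 ^ k ∨ EE (Rp cs (range A)) = -(1 / 2 ^ k))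
    (hk : k ≤ A + (2 * m + 2)) :
    ∃ M : Matrix (Fin (A + (2 * m + 2))) (Fin (A + (2 * m + 2))) ℤ,
      (∀ i j, M i j = 1 ∨ M i j = -1) ∧ M.permanent = 2 ^ (A + (2 * m + 2) - k) := by
  obtain ⟨c0, ct, rfl⟩ : ∃ c0 ct, cs = c0 :: ct := by
    cases cs with
    | nil => simp at hl
    | cons c0 ct => exact ⟨c0, ct, rfl⟩
  have hR : ∀ x, Rf (((c0 :: ct).map (gl A)) ++ (Tl m).map (gr A)) (range (A + (2 * m + 2))) x
      = Rf (c0 :: ct) (range A) x * (x * (Fb m).eval x ^ 2 + (-1) ^ m) := by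
    intro x
    rw [range_split, Rf_block A _ _ _ _ (Finset.Subset.refl _), Finset.card_range, hl, Rf_Tl]
    have e1 : x + (A : ℚ) - ((A + 1 : ℕ) : ℚ) = x - 1 := by
      push_cast
      ring
    rw [e1, sub_add_cancel, tail_id]
  have hP : Rp (((c0 :: ct).map (gl A)) ++ (Tl m).map (gr A)) (range (A + (2 * m + 2)))
      = Rp (c0 :: ct) (range A) * (X * Fb m ^ 2) + ((-1 : ℚ) ^ m) • Rp (c0 :: ct) (range A) := by
    apply Polynomial.funext
    intro x
    rw [eval_Rp, hR, eval_add, eval_mul, eval_Rp, eval_smul, eval_Rp]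
    simp only [eval_mul, eval_pow, eval_X, smul_eq_mul]
    ring
  have hEv : EE (Rp (c0 :: ct) (range A) * (X * Fb m ^ 2)) = 0 := by
    rw [EE_even]
    · simp
    · have h1 : (Rp (c0 :: ct) (range A)).comp (-X) = -Rp (c0 :: ct) (range A) := by
        apply Polynomial.funext
        intro x
        rw [eval_comp, eval_neg, eval_Rp, eval_neg, eval_X, eval_Rp, hodd]
      rw [mul_comp, mul_comp, h1, Fb_sq_even, X_comp]
      ring
  have hlen : (((c0 :: ct).map (gl A)) ++ (Tl m).map (gr A)).length = A + (2 * m + 2) := by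
    rw [List.length_append, List.length_map, List.length_map, hl, Tl_length]
    ring
  have hPf : Pf (((c0 :: ct).map (gl A)) ++ (Tl m).map (gr A)) (range (A + (2 * m + 2)))
      = (-2) ^ (A + (2 * m + 2)) * ((-1) ^ m * EE (Rp (c0 :: ct) (range A))) := by
    rw [Pf_eq EE isE_EE _ _ (by rw [Finset.card_range, hlen]), hlen, hP, map_add, hEv, zero_add,
      map_smul, smul_eq_mul]
  have hval : Pf (((c0 :: ct).map (gl A)) ++ (Tl m).map (gr A)) (range (A + (2 * m + 2)))
        = 2 ^ (A + (2 * m + 2) - k) ∨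
      Pf (((c0 :: ct).map (gl A)) ++ (Tl m).map (gr A)) (range (A + (2 * m + 2)))
        = -2 ^ (A + (2 * m + 2) - k) := by
    have h2 : (2 : ℚ) ^ (A + (2 * m + 2)) = 2 ^ (A + (2 * m + 2) - k) * 2 ^ k := by
      rw [← pow_add, Nat.sub_add_cancel hk]
    have h3 : (2 : ℚ) ^ k ≠ 0 := by positivity
    have h4 : ((-2 : ℚ)) ^ (A + (2 * m + 2)) = (-1) ^ (A + (2 * m + 2)) * 2 ^ (A + (2 * m + 2)) := by
      rw [← mul_pow]
      norm_num
    rw [hPf, h4, h2]
    rcases neg_one_pow_eq_or ℚ (A + (2 * m + 2)) with h5 | h5 <;>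
    rcases neg_one_pow_eq_or ℚ m with h6 | h6 <;>
    rcases hE with h7 | h7 <;> rw [h5, h6, h7]
    · left; field_simp
    · right; field_simp
    · right; field_simp
    · left; field_simp
    · right; field_simp
    · left; field_simp
    · left; field_simp
    · right; field_simp
  have h01' : ∀ c ∈ ((c0 :: ct).map (gl A)) ++ (Tl m).map (gr A), ∀ i, c i = 0 ∨ c i = 1 := by
    intro c hc i
    rcases List.mem_append.mp hc with hc | hc
    · exact gl_01 A _ h01 c hc i
    · exact gr_01 A _ (Tl_01 m) c hc i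
  rcases hval with hv | hv
  · obtain ⟨M, hM, hp⟩ := exists_matrix (A + (2 * m + 2)) _ hlen h01'
    refine ⟨M, hM, ?_⟩
    rw [hv] at hp
    exact_mod_cast hp
  · obtain ⟨M, hM, hp⟩ := exists_matrix (A + (2 * m + 2))
      ((fun i => 1 - gl A c0 i) :: ((ct.map (gl A)) ++ (Tl m).map (gr A))) (by
        rw [← hlen]
        simp) (by
      intro c hc i
      rcases List.mem_cons.mp hc with rfl | hc
      · rcases h01' (gl A c0) (by simp) i with h | h
        · right
          show 1 - gl A c0 i = 1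
          rw [h]
          norm_num
        · left
          show 1 - gl A c0 i = 0
          rw [h]
          norm_num
      · exact h01' c (by
          simp only [List.map_cons, List.cons_append]
          exact List.mem_cons_of_mem _ hc) i)
    refine ⟨M, hM, ?_⟩
    have h8 : Pf ((fun i => 1 - gl A c0 i) :: ((ct.map (gl A)) ++ (Tl m).map (gr A)))
        (range (A + (2 * m + 2)))
        = -Pf (((c0 :: ct).map (gl A)) ++ (Tl m).map (gr A)) (range (A + (2 * m + 2))) := by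
      simp only [List.map_cons, List.cons_append]
      rw [Pf_cons, Pf_cons, ← Finset.sum_neg_distrib]
      apply Finset.sum_congr rfl
      intro i _
      ring
    rw [h8, hv, neg_neg] at hp
    exact_mod_cast hp

end Pool.Agent.H48.PM
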