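import Pool.Agent.H48.PM.Boards
import Pool.Agent.H48.PM.Tail
import Pool.Agent.H21.PM.Q31

set_option autoImplicit false

namespace Pool.Agent.H48.PM

open Finset Polynomial

/-- There is a board with A + 1 lines on A rows, with odd rook function of functional value
plus or minus 2^(-k). -/
def QB (A k : ℕ) : Prop :=
  ∃ cs : List (ℕ → ℚ), cs.length = A + 1 ∧ (∀ c ∈ cs, ∀ i, c i = 0 ∨ c i = 1) ∧
    (∀ x, Rf cs (range A) (-x) = -Rf cs (range A) x) ∧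
    (EE (Rp cs (range A)) = 1 / 2 ^ k ∨ EE (Rp cs (range A)) = -(1 / 2 ^ k))

theorem perm_evn (A k n : ℕ) (hq : QB A k) (hA : A % 2 = 0) (hn : n % 2 = 0) (hAn : A + 2 ≤ n)
    (hk : k ≤ n) :
    ∃ M : Matrix (Fin n) (Fin n) ℤ, (∀ i j, M i j = 1 ∨ M i j = -1) ∧
      M.permanent = 2 ^ (n - k) := by
  obtain ⟨cs, hl, h01, hodd, hE⟩ := hq
  obtain ⟨m, hm⟩ : ∃ m, n = A + (2 * m + 2) := ⟨(n - A - 2) / 2, by omega⟩
  subst hm
  exact perm_chain A m k cs hl h01 hodd hE hk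

theorem padic_two (j u : ℕ) : padicValNat 2 (2 ^ j * (2 * u + 1)) = j := by
  rw [padicValNat.mul (by positivity) (by omega), padicValNat.prime_pow]
  have h : ¬ 2 ∣ (2 * u + 1) := by omega
  rw [padicValNat.eq_zero_of_not_dvd h, add_zero]

/-- Existence of a permanent 2^(n - c). -/
def Ex (n c : ℕ) : Prop :=
  ∃ M : Matrix (Fin n) (Fin n) ℤ, (∀ i j, M i j = 1 ∨ M i j = -1) ∧ M.permanent = 2 ^ (n - c)

theorem ex_even (h0 : QB 0 1) (h2 : QB 2 2) (h6 : QB 6 3) (h14 : QB 14 4) (h30 : QB 30 5)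
    (n : ℕ) (hn : n % 2 = 0) (h1 : 1 ≤ n) : Ex n (min (Nat.log 2 n) 5) := by
  have hlog : ∀ k, 2 ^ k ≤ n → n < 2 ^ (k + 1) → Nat.log 2 n = k := by
    intro k hk1 hk2
    exact Nat.log_eq_of_pow_le_of_lt_pow hk1 hk2
  rcases Nat.lt_or_ge n 4 with h | h
  · have e : Nat.log 2 n = 1 := hlog 1 (by norm_num; omega) (by norm_num; omega)
    rw [e]
    exact perm_evn 0 1 n h0 rfl hn (by omega) (by omega)
  rcases Nat.lt_or_ge n 8 with h' | h'
  · have e : Nat.log 2 n = 2 := hlog 2 (by norm_num; omega) (by norm_num; omega)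
    rw [e]
    exact perm_evn 2 2 n h2 rfl hn (by omega) (by omega)
  rcases Nat.lt_or_ge n 16 with h'' | h''
  · have e : Nat.log 2 n = 3 := hlog 3 (by norm_num; omega) (by norm_num; omega)
    rw [e]
    exact perm_evn 6 3 n h6 rfl hn (by omega) (by omega)
  rcases Nat.lt_or_ge n 32 with h''' | h'''
  · have e : Nat.log 2 n = 4 := hlog 4 (by norm_num; omega) (by norm_num; omega)
    rw [e]
    exact perm_evn 14 4 n h14 rfl hn (by omega) (by omega)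
  · have e : 5 ≤ Nat.log 2 n := by
      have : Nat.log 2 32 ≤ Nat.log 2 n := Nat.log_mono_right h'''
      have e2 : Nat.log 2 32 = 5 := by decide
      omega
    rw [min_eq_right e]
    exact perm_evn 30 5 n h30 rfl hn (by omega) (by omega)

theorem qb0 : QB 0 1 := by
  refine ⟨[fun _ => 0], rfl, ?_, ?_, ?_⟩
  · intro c hc i
    rw [List.mem_singleton] at hc
    subst hc
    left
    rfl
  · intro x
    simp [Rf]
  · right
    have h1 : Rp [fun _ => (0 : ℚ)] (range 0) = X := by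
      simp [Rp]
    have h2 := isE_pow EE isE_EE 1 one_ne_zero
    rw [Finset.sum_range_one, isE_one EE isE_EE] at h2
    rw [h1]
    simp only [Nat.choose_zero_right, Nat.cast_one, pow_one] at h2 ⊢
    linarith

theorem qb_of {A k : ℕ} (h : ∃ cs : List (ℕ → ℚ), cs.length = A + 1 ∧
    (∀ c ∈ cs, ∀ i, c i = 0 ∨ c i = 1) ∧ (∀ x, Rf cs (range A) (-x) = -Rf cs (range A) x) ∧
    EE (Rp cs (range A)) = -1 / 2 ^ k) : QB A k := by
  obtain ⟨cs, h1, h2, h3, h4⟩ := h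
  refine ⟨cs, h1, h2, h3, Or.inr ?_⟩
  rw [h4]
  ring

/-- Every even order: gain min (log2 n) 5. -/
theorem ex_even' (n : ℕ) (hn : n % 2 = 0) (h1 : 1 ≤ n) : Ex n (min (Nat.log 2 n) 5) :=
  ex_even qb0 (qb_of Pool.Agent.H21.PM.q_board3) (qb_of Pool.Agent.H21.PM.q_board7)
    (qb_of Pool.Agent.H21.PM.q_board15) (qb_of Pool.Agent.H21.PM.q_board31) n hn h1

theorem ex_odd (n : ℕ) (hn : n % 2 = 1) (h31 : n % 32 ≠ 31) : Ex n (padicValNat 2 (n + 1)) := by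
  have hcase : n % 4 = 1 ∨ n % 8 = 3 ∨ n % 16 = 7 ∨ n % 32 = 15 := by omega
  rcases hcase with h | h | h | h
  · obtain ⟨k, rfl⟩ : ∃ k, n = 4 * k + 1 := ⟨n / 4, by omega⟩
    have e : padicValNat 2 (4 * k + 1 + 1) = 1 := by
      have e2 : 4 * k + 1 + 1 = 2 ^ 1 * (2 * k + 1) := by ring
      rw [e2]
      exact padic_two 1 k
    obtain ⟨M, hM, hp⟩ := perm_4k1 k
    refine ⟨M, hM, ?_⟩
    rw [hp, e]
    congr 1
  · obtain ⟨k, rfl⟩ : ∃ k, n = 8 * k + 3 := ⟨n / 8, by omega⟩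
    have e : padicValNat 2 (8 * k + 3 + 1) = 2 := by
      have e2 : 8 * k + 3 + 1 = 2 ^ 2 * (2 * k + 1) := by ring
      rw [e2]
      exact padic_two 2 k
    obtain ⟨M, hM, hp⟩ := perm_8k3 k
    refine ⟨M, hM, ?_⟩
    rw [hp, e]
    congr 1
  · obtain ⟨k, rfl⟩ : ∃ k, n = 16 * k + 7 := ⟨n / 16, by omega⟩
    have e : padicValNat 2 (16 * k + 7 + 1) = 3 := by
      have e2 : 16 * k + 7 + 1 = 2 ^ 3 * (2 * k + 1) := by ring
      rw [e2]
      exact padic_two 3 k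
    obtain ⟨M, hM, hp⟩ := perm_16k7 k
    refine ⟨M, hM, ?_⟩
    rw [hp, e]
    congr 1
  · obtain ⟨k, rfl⟩ : ∃ k, n = 32 * k + 15 := ⟨n / 32, by omega⟩
    have e : padicValNat 2 (32 * k + 15 + 1) = 4 := by
      have e2 : 32 * k + 15 + 1 = 2 ^ 4 * (2 * k + 1) := by ring
      rw [e2]
      exact padic_two 4 k
    obtain ⟨M, hM, hp⟩ := perm_32k15 k
    refine ⟨M, hM, ?_⟩
    rw [hp, e]
    congr 1

theorem least_exists (n : ℕ) :
    ∃ m : ℤ, IsLeast {p : ℤ | 0 < p ∧ ∃ M : Matrix (Fin n) (Fin n) ℤ,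
        (∀ i j, M i j = 1 ∨ M i j = -1) ∧ M.permanent = p} m ∧
      2 ^ (n - Nat.log 2 (n + 1)) ≤ m := by
  have hpos : 0 < (Matrix.of (fun _ _ : Fin n => (1 : ℤ))).permanent := by
    unfold Matrix.permanent
    simp [Nat.factorial_pos, Fintype.card_perm]
  obtain ⟨m, hm, hmin⟩ := Int.exists_least_of_bdd
    (P := fun p => 0 < p ∧ ∃ M : Matrix (Fin n) (Fin n) ℤ,
      (∀ i j, M i j = 1 ∨ M i j = -1) ∧ M.permanent = p)
    ⟨0, fun z hz => hz.1.le⟩ ⟨_, hpos, _, fun _ _ => Or.inl rfl, rfl⟩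
  refine ⟨m, ⟨hm, fun z hz => hmin z hz⟩, ?_⟩
  obtain ⟨h0, N, hN, hNp⟩ := hm
  have hd := pow_dvd_permanent n N hN
  rw [hNp] at hd
  exact Int.le_of_dvd h0 hd

/-- The final statement. -/
theorem final (n : ℕ) (h1 : 1 ≤ n) :
    ∃ m : ℤ, IsLeast {p : ℤ | 0 < p ∧ ∃ M : Matrix (Fin n) (Fin n) ℤ,
        (∀ i j, M i j = 1 ∨ M i j = -1) ∧ M.permanent = p} m ∧
      2 ^ (n - Nat.log 2 (n + 1)) ≤ m ∧
      (n % 2 = 0 → m ≤ 2 ^ (n - min (Nat.log 2 n) 5)) ∧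
      (n % 2 = 1 → n % 32 ≠ 31 → m ≤ 2 ^ (n - padicValNat 2 (n + 1))) := by
  obtain ⟨m, hm, hlow⟩ := least_exists n
  have key : ∀ c, Ex n c → m ≤ 2 ^ (n - c) := by
    rintro c ⟨M, hM, hp⟩
    rw [← hp]
    exact hm.2 ⟨by rw [hp]; positivity, M, hM, rfl⟩
  exact ⟨m, hm, hlow, fun h => key _ (ex_even' n h h1), fun h h' => key _ (ex_odd n h h')⟩

end Pool.Agent.H48.PM
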