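import Pool.Agent.H48.PM.Core

set_option autoImplicit false

namespace Pool.Agent.H48.PM

open Finset Polynomial

/-- Values of the functional on monomials. -/
noncomputable def ev : ℕ → ℚ
  | n => if n = 0 then 1 else -(1 / 2) * ∑ k : Fin n, (n.choose k : ℚ) * ev k

theorem ev_zero : ev 0 = 1 := by
  rw [ev]
  simp

theorem ev_rec (n : ℕ) (hn : n ≠ 0) :
    2 * ev n + ∑ k ∈ range n, (n.choose k : ℚ) * ev k = 0 := by
  rw [ev]
  simp only [hn, if_false]
  rw [Finset.sum_range]
  ring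

/-- The functional. -/
noncomputable def EE : ℚ[X] →ₗ[ℚ] ℚ := (Polynomial.basisMonomials ℚ).constr ℚ ev

theorem EE_pow (n : ℕ) : EE (X ^ n) = ev n := by
  have h := (Polynomial.basisMonomials ℚ).constr_basis ℚ ev n
  rw [Polynomial.coe_basisMonomials] at h
  rw [← Polynomial.monomial_one_right_eq_X_pow]
  exact h

theorem comp_pow_expand (F : ℚ[X] →ₗ[ℚ] ℚ) (n : ℕ) :
    F ((X ^ n : ℚ[X]).comp (X + 1)) = F (X ^ n) + ∑ k ∈ range n, (n.choose k : ℚ) * F (X ^ k) := by
  have h1 : (X ^ n : ℚ[X]).comp (X + 1)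
      = ∑ k ∈ range (n + 1), (n.choose k : ℚ) • (X ^ k : ℚ[X]) := by
    rw [pow_comp, X_comp, add_pow]
    apply Finset.sum_congr rfl
    intro k _
    rw [one_pow, mul_one, Polynomial.smul_eq_C_mul]
    rw [mul_comm]
    simp
  rw [h1, map_sum, Finset.sum_range_succ]
  simp only [map_smul, smul_eq_mul, Nat.choose_self, Nat.cast_one, one_mul]
  ring

theorem lin_ext (F : ℚ[X] →ₗ[ℚ] ℚ) (c : ℚ[X] → ℚ) (hadd : ∀ p q, c (p + q) = c p + c q)
    (hsmul : ∀ (a : ℚ) p, c (a • p) = a * c p) (h : ∀ n : ℕ, F (X ^ n) = c (X ^ n)) :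
    ∀ p, F p = c p := by
  intro p
  induction p using Polynomial.induction_on' with
  | add p q hp hq => rw [map_add, hadd, hp, hq]
  | monomial n a =>
    have e : (Polynomial.monomial n a : ℚ[X]) = a • X ^ n := by
      rw [Polynomial.smul_eq_C_mul, Polynomial.C_mul_X_pow_eq_monomial]
    rw [e, map_smul, hsmul, h, smul_eq_mul]

theorem isE_of_pow (F : ℚ[X] →ₗ[ℚ] ℚ) (h0 : F (X ^ 0) = 1)
    (hn : ∀ n, n ≠ 0 → 2 * F (X ^ n) + ∑ k ∈ range n, (n.choose k : ℚ) * F (X ^ k) = 0) :
    IsE F := by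
  intro p
  have h := lin_ext (F + F ∘ₗ (Polynomial.taylor (1 : ℚ))) (fun p => 2 * p.eval 0)
    (fun p q => by simp only [eval_add]; ring) (fun a p => by simp only [eval_smul, smul_eq_mul]; ring)
    (fun n => by
      rw [LinearMap.add_apply, LinearMap.comp_apply, Polynomial.taylor_apply, map_one,
        comp_pow_expand]
      rcases Nat.eq_zero_or_pos n with rfl | hpos
      · rw [h0]
        simp
        norm_num
      · have := hn n hpos.ne'
        simp only [eval_pow, eval_X, zero_pow hpos.ne', mul_zero]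
        linarith) p
  rw [LinearMap.add_apply, LinearMap.comp_apply, Polynomial.taylor_apply, map_one] at h
  exact h

theorem isE_EE : IsE EE := by
  apply isE_of_pow
  · rw [EE_pow, ev_zero]
  · intro n hn
    simp only [EE_pow]
    exact ev_rec n hn

theorem isE_pow (F : ℚ[X] →ₗ[ℚ] ℚ) (hF : IsE F) (n : ℕ) (hn : n ≠ 0) :
    2 * F (X ^ n) + ∑ k ∈ range n, (n.choose k : ℚ) * F (X ^ k) = 0 := by
  have h := hF (X ^ n)
  rw [comp_pow_expand] at h
  simp only [eval_pow, eval_X, zero_pow hn, mul_zero] at h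
  linarith

theorem isE_one (F : ℚ[X] →ₗ[ℚ] ℚ) (hF : IsE F) : F (X ^ 0) = 1 := by
  have h1 := hF 1
  simp only [one_comp, eval_one] at h1
  rw [pow_zero]
  linarith

theorem isE_unique (F G : ℚ[X] →ₗ[ℚ] ℚ) (hF : IsE F) (hG : IsE G) (n : ℕ) :
    F (X ^ n) = G (X ^ n) := by
  induction n using Nat.strong_induction_on with
  | _ n ih =>
    rcases Nat.eq_zero_or_pos n with rfl | hpos
    · rw [isE_one F hF, isE_one G hG]
    · have h1 := isE_pow F hF n hpos.ne'
      have h2 := isE_pow G hG n hpos.ne'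
      have h3 : ∑ k ∈ range n, (n.choose k : ℚ) * F (X ^ k)
          = ∑ k ∈ range n, (n.choose k : ℚ) * G (X ^ k) := by
        apply Finset.sum_congr rfl
        intro k hk
        rw [ih k (Finset.mem_range.mp hk)]
      linarith

/-- The reflected functional h ↦ 2 h(0) - E(h(-x)). -/
noncomputable def refl (E : ℚ[X] →ₗ[ℚ] ℚ) : ℚ[X] →ₗ[ℚ] ℚ where
  toFun p := 2 * p.eval 0 - E (p.comp (-X))
  map_add' p q := by
    rw [add_comp, map_add, eval_add]
    ring
  map_smul' a p := by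
    rw [smul_comp, map_smul, eval_smul, smul_eq_mul, smul_eq_mul, RingHom.id_apply, smul_eq_mul]
    ring

theorem refl_apply (E : ℚ[X] →ₗ[ℚ] ℚ) (p : ℚ[X]) :
    refl E p = 2 * p.eval 0 - E (p.comp (-X)) := rfl

theorem isE_refl (E : ℚ[X] →ₗ[ℚ] ℚ) (hE : IsE E) : IsE (refl E) := by
  intro h
  rw [refl_apply, refl_apply]
  have h1 := hE (h.comp (1 - X))
  have e1 : (h.comp (1 - X)).comp (X + 1) = h.comp (-X) := by
    rw [comp_assoc]
    congr 1
    simp
  have e2 : (h.comp (X + 1)).comp (-X) = h.comp (1 - X) := by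
    rw [comp_assoc]
    congr 1
    simp
    ring
  rw [e1] at h1
  rw [e2]
  simp only [eval_comp, eval_add, eval_sub, eval_X, eval_one, zero_add, sub_zero] at h1 ⊢
  linarith

theorem EE_even (p : ℚ[X]) (hp : p.comp (-X) = p) : EE p = p.eval 0 := by
  have h := lin_ext EE (fun p => refl EE p) (fun p q => map_add _ p q)
    (fun a p => by simp only [map_smul, smul_eq_mul])
    (fun n => isE_unique EE (refl EE) isE_EE (isE_refl EE isE_EE) n) p
  simp only [refl_apply, hp] at h
  linarith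

/-- If a rook function is even, the permanent sum is (-2)^n times its value at 0. -/
theorem Pf_even (cs : List (ℕ → ℚ)) (U : Finset ℕ) (hU : U.card = cs.length)
    (hev : ∀ x : ℚ, Rf cs U (-x) = Rf cs U x) :
    Pf cs U = (-2) ^ cs.length * Rf cs U 0 := by
  rw [Pf_eq EE isE_EE cs U hU, EE_even, eval_Rp]
  apply Polynomial.funext
  intro x
  rw [eval_comp, eval_Rp]
  simp only [eval_neg, eval_X]
  rw [hev, eval_Rp]

end Pool.Agent.H48.PM
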