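import Pool.Agent.H48.PM.Seed

set_option autoImplicit false

namespace Pool.Agent.H48.PM

open Finset Polynomial

theorem block_product (a b : ℕ) (cs1 cs2 : List (ℕ → ℚ)) (h1 : cs1.length = a)
    (h2 : cs2.length = b) (z1 : ∀ c ∈ cs1, ∀ i, c i = 0 ∨ c i = 1)
    (z2 : ∀ c ∈ cs2, ∀ i, c i = 0 ∨ c i = 1) :
    ∃ cs : List (ℕ → ℚ), cs.length = a + b ∧ (∀ c ∈ cs, ∀ i, c i = 0 ∨ c i = 1) ∧
      ∀ x, Rf cs (range (a + b)) x = Rf cs1 (range a) x * Rf cs2 (range b) x := by
  refine ⟨cs1.map (fun c i => if i < a then c i else 0) ++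
    cs2.map (fun c i => if i < a then 1 else c (i - a)), ?_, ?_, ?_⟩
  · rw [List.length_append, List.length_map, List.length_map, h1, h2]
  · intro c hc i
    rcases List.mem_append.mp hc with hc | hc
    · obtain ⟨d, hd, rfl⟩ := List.mem_map.mp hc
      by_cases hi : i < a
      · simp only [hi, if_true]
        exact z1 d hd i
      · simp only [hi, if_false]
        left
        trivial
    · obtain ⟨d, hd, rfl⟩ := List.mem_map.mp hc
      by_cases hi : i < a
      · simp only [hi, if_true]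
        right
        trivial
      · simp only [hi, if_false]
        exact z2 d hd (i - a)
  · intro x
    have hr : range (a + b) = range a ∪ (range b).map (addLeftEmbedding a) := by
      rw [Finset.range_add_eq_union]
    have hd : Disjoint (range a) ((range b).map (addLeftEmbedding a)) := by
      rw [Finset.disjoint_left]
      intro i hi hj
      obtain ⟨j, hj, hij⟩ := Finset.mem_map.mp hj
      simp only [addLeftEmbedding_apply] at hij
      rw [Finset.mem_range] at hi
      omega
    rw [hr, Rf_append _ _ _ _ x hd]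
    · rw [List.length_map, h1, Finset.card_range]
      have e1 : x + (a : ℚ) - a = x := by ring
      rw [e1]
      congr 1
      · exact Rf_congr (fun c i => if i < a then c i else 0) (range a)
          (fun c i hi => by
            have : i < a := Finset.mem_range.mp hi
            simp [this]) cs1 (range a) x (Finset.Subset.refl _)
      · exact Rf_map (addLeftEmbedding a) (fun c i => if i < a then 1 else c (i - a))
          (fun c i => by simp) cs2 (range b) x
    · intro c hc i hi
      obtain ⟨d, hd, rfl⟩ := List.mem_map.mp hc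
      obtain ⟨j, hj, hij⟩ := Finset.mem_map.mp hi
      simp only [addLeftEmbedding_apply] at hij
      have : ¬ i < a := by omega
      simp [this]
    · intro c hc i hi
      obtain ⟨d, hd, rfl⟩ := List.mem_map.mp hc
      have : i < a := Finset.mem_range.mp hi
      simp [this]

/-- There is a board of order n with even rook function and value 1 at 0. -/
def Good (n : ℕ) : Prop :=
  ∃ cs : List (ℕ → ℚ), cs.length = n ∧ (∀ c ∈ cs, ∀ i, c i = 0 ∨ c i = 1) ∧
    (∀ x, Rf cs (range n) (-x) = Rf cs (range n) x) ∧ Rf cs (range n) 0 = 1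

theorem good_add (a b : ℕ) (ha : Good a) (hb : Good b) : Good (a + b) := by
  obtain ⟨cs1, l1, z1, e1, v1⟩ := ha
  obtain ⟨cs2, l2, z2, e2, v2⟩ := hb
  obtain ⟨cs, l, z, h⟩ := block_product a b cs1 cs2 l1 l2 z1 z2
  refine ⟨cs, l, z, ?_, ?_⟩
  · intro x
    rw [h, h, e1, e2]
  · rw [h, v1, v2, one_mul]

theorem bitc_01 (L : List ℕ) : ∀ c ∈ L.map bitc, ∀ i, c i = 0 ∨ c i = 1 := by
  intro c hc i
  obtain ⟨d, _, rfl⟩ := List.mem_map.mp hc
  unfold bitc
  split_ifs
  · right; rfl
  · left; rfl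

theorem good6 : Good 6 := by
  refine ⟨L6.map bitc, by simp [L6], bitc_01 L6, ?_, ?_⟩
  · intro x
    rw [Rf6, Rf6]
    ring
  · rw [Rf6]
    norm_num

theorem good8 : Good 8 := by
  refine ⟨L8.map bitc, by simp [L8], bitc_01 L8, ?_, ?_⟩
  · intro x
    rw [Rf8, Rf8]
    ring
  · rw [Rf8]
    norm_num

theorem good_all (k : ℕ) : 3 ≤ k → k ≠ 5 → Good (2 * k) := by
  induction k using Nat.strong_induction_on with
  | _ k ih =>
    intro h3 h5
    by_cases hk : 9 ≤ k
    · have h := good_add 6 (2 * (k - 3)) good6 (ih (k - 3) (by omega) (by omega) (by omega))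
      have e : 6 + 2 * (k - 3) = 2 * k := by omega
      rw [e] at h
      exact h
    · have h12 : Good 12 := good_add 6 6 good6 good6
      have h14 : Good 14 := good_add 6 8 good6 good8
      have h16 : Good 16 := good_add 8 8 good8 good8
      interval_cases k
      · exact good6
      · exact good8
      · exact absurd rfl h5
      · exact h12
      · exact h14
      · exact h16

def L4 : List ℕ := [1, 2, 4, 8]

theorem cnt4 : (List.range 5).map (cnt 4 L4 15) = [1, 4, 6, 4, 1] := by
  decide +kernel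

theorem Rf4 (x : ℚ) : Rf (L4.map bitc) (range 4) x = x ^ 4 - 2 * x ^ 3 + 5 * x ^ 2 + 1 := by
  have h := Rf_cnt 4 L4 15 x 5 (by decide)
  rw [show mset 4 15 = range 4 from mset_full 4] at h
  have hc := cnt4
  simp only [List.range, List.range.loop, List.map_cons, List.map_nil, List.cons.injEq] at hc
  obtain ⟨h0, h1, h2, h3, h4, -⟩ := hc
  rw [h]
  simp only [Finset.sum_range_succ, Finset.sum_range_zero, h0, h1, h2, h3, h4, ff]
  push_cast
  ring

theorem perm_even (n : ℕ) (he : Even n) (h : Good n) :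
    ∃ M : Matrix (Fin n) (Fin n) ℤ, (∀ i j, M i j = 1 ∨ M i j = -1) ∧ M.permanent = 2 ^ n := by
  obtain ⟨cs, l, z, e, v⟩ := h
  obtain ⟨M, hM, hp⟩ := exists_matrix n cs l z
  refine ⟨M, hM, ?_⟩
  rw [Pf_even cs (range n) (by rw [Finset.card_range, l]) e, v, mul_one, l, he.neg_pow] at hp
  exact_mod_cast hp

/-- Auxiliary polynomial. -/
noncomputable def H10 : ℚ[X] := -X ^ 9 + C (9 / 2) * X ^ 8 - 10 * X ^ 7 + 14 * X ^ 6
  - 12 * X ^ 5 + C (11 / 2) * X ^ 4 - X ^ 3

/-- Auxiliary polynomial. -/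
noncomputable def P10 : ℚ[X] :=
  X ^ 10 + 15 * X ^ 8 + 63 * X ^ 6 + 71 * X ^ 4 + 17 * X ^ 2 + 1

theorem H10_eval (x : ℚ) : H10.eval x = -x ^ 9 + 9 / 2 * x ^ 8 - 10 * x ^ 7 + 14 * x ^ 6
    - 12 * x ^ 5 + 11 / 2 * x ^ 4 - x ^ 3 := by
  simp only [H10, eval_add, eval_sub, eval_mul, eval_pow, eval_X, eval_C, eval_neg, eval_ofNat]

theorem P10_eval (x : ℚ) : P10.eval x
    = x ^ 10 + 15 * x ^ 8 + 63 * x ^ 6 + 71 * x ^ 4 + 17 * x ^ 2 + 1 := by
  simp only [P10, eval_add, eval_mul, eval_pow, eval_X, eval_one, eval_ofNat]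

theorem EE_ten : EE (P10 + (H10 + H10.comp (X + 1))) = 1 := by
  rw [map_add, map_add, isE_EE H10, EE_even, H10_eval, P10_eval]
  · norm_num
  · apply Polynomial.funext
    intro x
    rw [eval_comp, eval_neg, eval_X, P10_eval, P10_eval]
    ring

theorem perm_ten :
    ∃ M : Matrix (Fin 10) (Fin 10) ℤ, (∀ i j, M i j = 1 ∨ M i j = -1) ∧ M.permanent = 2 ^ 10 := by
  obtain ⟨cs, l, z, h⟩ := block_product 6 4 (L6.map bitc) (L4.map bitc) (by simp [L6])
    (by simp [L4]) (bitc_01 L6) (bitc_01 L4)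
  obtain ⟨M, hM, hp⟩ := exists_matrix 10 cs l z
  refine ⟨M, hM, ?_⟩
  rw [Pf_eq EE isE_EE cs (range 10) (by rw [Finset.card_range, l])] at hp
  have hP : Rp cs (range 10) = P10 + (H10 + H10.comp (X + 1)) := by
    apply Polynomial.funext
    intro x
    rw [eval_Rp]
    have h10 := h x
    rw [show (6 : ℕ) + 4 = 10 from rfl] at h10
    rw [h10, Rf6, Rf4, eval_add, eval_add, eval_comp, eval_add, eval_X, eval_one,
      P10_eval, H10_eval, H10_eval]
    ring
  rw [hP, EE_ten, l] at hp
  norm_num at hp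
  norm_num
  exact_mod_cast hp

end Pool.Agent.H48.PM
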