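import Pool.Agent.H48.PM.Half
import Pool.Agent.H48.PM.Lower

set_option autoImplicit false

namespace Pool.Agent.H48.PM

theorem small_two : ∃ M : Matrix (Fin 2) (Fin 2) ℤ, (∀ i j, M i j = 1 ∨ M i j = -1) ∧
    0 < M.permanent ∧ M.permanent ≤ 2 ^ 2 := by
  refine ⟨fun _ _ => 1, fun _ _ => Or.inl rfl, ?_, ?_⟩ <;> decide +kernel

theorem small_four : ∃ M : Matrix (Fin 4) (Fin 4) ℤ, (∀ i j, M i j = 1 ∨ M i j = -1) ∧
    0 < M.permanent ∧ M.permanent ≤ 2 ^ 4 := by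
  refine ⟨!![1, 1, 1, 1; 1, 1, -1, -1; 1, -1, 1, 1; 1, 1, 1, 1], ?_, ?_, ?_⟩
  · intro i j
    fin_cases i <;> fin_cases j <;> simp
  · decide +kernel
  · decide +kernel

theorem exact_even (n : ℕ) (hn : Even n) (h6 : 6 ≤ n) :
    ∃ M : Matrix (Fin n) (Fin n) ℤ, (∀ i j, M i j = 1 ∨ M i j = -1) ∧ M.permanent = 2 ^ n := by
  obtain ⟨k, hk⟩ := hn
  have hk2 : n = 2 * k := by omega
  subst hk2
  by_cases h5 : k = 5
  · subst h5
    exact perm_ten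
  · exact perm_even (2 * k) ⟨k, by ring⟩ (good_all k (by omega) h5)

theorem upper_even (n : ℕ) (hn : Even n) (h1 : 1 ≤ n) :
    ∃ M : Matrix (Fin n) (Fin n) ℤ, (∀ i j, M i j = 1 ∨ M i j = -1) ∧
      0 < M.permanent ∧ M.permanent ≤ 2 ^ n := by
  by_cases h6 : 6 ≤ n
  · obtain ⟨M, hM, hp⟩ := exact_even n hn h6
    exact ⟨M, hM, by rw [hp]; positivity, by rw [hp]⟩
  · obtain ⟨k, hk⟩ := hn
    have hk2 : k = 1 ∨ k = 2 := by omega
    rcases hk2 with rfl | rfl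
    · subst hk
      exact small_two
    · subst hk
      exact small_four

/-- The least positive permanent exists and is at least 2^(n - log2 (n+1)) and at most any
positive value. -/
theorem least_of_upper (n : ℕ) (b : ℤ) (h : ∃ M : Matrix (Fin n) (Fin n) ℤ,
    (∀ i j, M i j = 1 ∨ M i j = -1) ∧ 0 < M.permanent ∧ M.permanent ≤ b) :
    ∃ m : ℤ, IsLeast {p : ℤ | 0 < p ∧ ∃ M : Matrix (Fin n) (Fin n) ℤ,
        (∀ i j, M i j = 1 ∨ M i j = -1) ∧ M.permanent = p} m ∧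
      2 ^ (n - Nat.log 2 (n + 1)) ≤ m ∧ m ≤ b := by
  obtain ⟨M, hM, hpos, hle⟩ := h
  obtain ⟨m, hm, hmin⟩ := Int.exists_least_of_bdd
    (P := fun p => 0 < p ∧ ∃ M : Matrix (Fin n) (Fin n) ℤ,
      (∀ i j, M i j = 1 ∨ M i j = -1) ∧ M.permanent = p)
    ⟨0, fun z hz => hz.1.le⟩ ⟨M.permanent, hpos, M, hM, rfl⟩
  refine ⟨m, ⟨hm, fun z hz => hmin z hz⟩, ?_, (hmin M.permanent ⟨hpos, M, hM, rfl⟩).trans hle⟩
  obtain ⟨h0, N, hN, hNp⟩ := hm
  have hd := pow_dvd_permanent n N hN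
  rw [hNp] at hd
  exact Int.le_of_dvd h0 hd

end Pool.Agent.H48.PM
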