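import Pool.Agent.H48.PM.Close

set_option autoImplicit false

namespace Pool.Agent.H48.PM

open Finset Polynomial

/-! ### The alternating double sum -/

/-- The alternating double sum of the wave columns. -/
def Phi {R : Type*} [CommRing R] (P Q S : R) (L : ℕ) : R :=
  ∑ a ∈ range (L + 1), ∑ b ∈ range (L + 1),
    (-1) ^ (a + b) * (P ^ min a b * Q ^ (max a b - min a b) * S ^ (L - max a b))

/-- The alternating sum of the monomials of degree n in P and Q. -/
def Bs {R : Type*} [CommRing R] (P Q : R) : ℕ → R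
  | 0 => 1
  | n + 1 => P ^ (n + 1) - Q * Bs P Q n

theorem Bs_zero {R : Type*} [CommRing R] (P Q : R) : Bs P Q 0 = 1 := rfl

theorem Bs_succ {R : Type*} [CommRing R] (P Q : R) (n : ℕ) :
    Bs P Q (n + 1) = P ^ (n + 1) - Q * Bs P Q n := rfl

theorem Bs_sum {R : Type*} [CommRing R] (P Q : R) (n : ℕ) :
    ∑ a ∈ range (n + 1), (-1) ^ (a + n) * (P ^ a * Q ^ (n - a)) = Bs P Q n := by
  induction n with
  | zero => simp [Bs]
  | succ n ih =>
    rw [Finset.sum_range_succ, Bs_succ, ← ih, Finset.mul_sum]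
    have h1 : ∀ a ∈ range (n + 1), (-1 : R) ^ (a + (n + 1)) * (P ^ a * Q ^ (n + 1 - a))
        = -(Q * ((-1) ^ (a + n) * (P ^ a * Q ^ (n - a)))) := by
      intro a ha
      have h2 : n + 1 - a = (n - a) + 1 := by
        have := Finset.mem_range.mp ha
        omega
      rw [h2, pow_succ, ← add_assoc, pow_succ]
      ring
    rw [Finset.sum_congr rfl h1, Finset.sum_neg_distrib]
    have h3 : (-1 : R) ^ (n + 1 + (n + 1)) = 1 := by
      rw [← two_mul, pow_mul]
      simp
    rw [h3]
    simp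
    ring

theorem Bs_swap_rec {R : Type*} [CommRing R] (P Q : R) (n : ℕ) :
    Bs P Q (n + 1) - P * Bs P Q n = (-1) ^ (n + 1) * Q ^ (n + 1) := by
  induction n with
  | zero =>
    simp [Bs]
  | succ n ih =>
    rw [Bs_succ P Q (n + 1)]
    have h1 := Bs_succ P Q n
    rw [pow_succ (-1 : R) (n + 1), pow_succ Q (n + 1)]
    linear_combination (-Q) * ih + (-P) * h1

theorem Phi_zero {R : Type*} [CommRing R] (P Q S : R) : Phi P Q S 0 = 1 := by
  simp [Phi]

theorem Phi_succ {R : Type*} [CommRing R] (P Q S : R) (L : ℕ) :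
    Phi P Q S (L + 1) = S * Phi P Q S L + 2 * Bs P Q (L + 1) - P ^ (L + 1) := by
  have h1 : ∀ a ∈ range (L + 1), ∑ b ∈ range (L + 1 + 1),
      (-1 : R) ^ (a + b) * (P ^ min a b * Q ^ (max a b - min a b) * S ^ (L + 1 - max a b))
      = S * (∑ b ∈ range (L + 1),
        (-1 : R) ^ (a + b) * (P ^ min a b * Q ^ (max a b - min a b) * S ^ (L - max a b)))
        + (-1) ^ (a + (L + 1)) * (P ^ a * Q ^ (L + 1 - a)) := by
    intro a ha
    have ha2 := Finset.mem_range.mp ha
    rw [Finset.sum_range_succ, Finset.mul_sum]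
    congr 1
    · apply Finset.sum_congr rfl
      intro b hb
      have hb2 := Finset.mem_range.mp hb
      have h2 : L + 1 - max a b = (L - max a b) + 1 := by
        rcases le_total a b with h | h
        · rw [max_eq_right h]
          omega
        · rw [max_eq_left h]
          omega
      rw [h2, pow_succ]
      ring
    · have h3 : min a (L + 1) = a := by omega
      have h4 : max a (L + 1) = L + 1 := by omega
      rw [h3, h4]
      simp
  have h5 : ∑ b ∈ range (L + 1 + 1),
      (-1 : R) ^ (L + 1 + b) * (P ^ min (L + 1) b * Q ^ (max (L + 1) b - min (L + 1) b)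
        * S ^ (L + 1 - max (L + 1) b)) = Bs P Q (L + 1) := by
    rw [← Bs_sum]
    apply Finset.sum_congr rfl
    intro b hb
    have hb2 := Finset.mem_range.mp hb
    have h3 : min (L + 1) b = b := by omega
    have h4 : max (L + 1) b = L + 1 := by omega
    rw [h3, h4, add_comm (L + 1) b]
    simp
  unfold Phi
  rw [Finset.sum_range_succ, h5, Finset.sum_congr rfl h1, Finset.sum_add_distrib,
    ← Finset.mul_sum]
  have h6 := Bs_sum P Q (L + 1)
  rw [Finset.sum_range_succ] at h6
  have h7 : (-1 : R) ^ (L + 1 + (L + 1)) = 1 := by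
    rw [← two_mul, pow_mul]
    simp
  rw [h7] at h6
  simp only [Nat.sub_self, pow_zero, mul_one, one_mul] at h6
  linear_combination h6

theorem Phi_id {R : Type*} [CommRing R] (P Q S : R) (L : ℕ) :
    (P - S) * Phi P Q S L = (P - Q) * Bs P Q L + (-1) ^ L * ((Q - S) * Bs Q S L) := by
  induction L with
  | zero =>
    rw [Phi_zero, Bs_zero, Bs_zero]
    ring
  | succ L ih =>
    rw [Phi_succ, Bs_succ Q S L]
    have h1 := Bs_swap_rec P Q L
    have h2 := Bs_succ P Q L
    rw [pow_succ (-1 : R) L] at h1 ⊢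
    linear_combination S * ih + (P - S) * h2 + (Q - S) * h1

theorem Phi_swap {R : Type*} [CommRing R] (P Q S : R) (L : ℕ) : Phi S Q P L = Phi P Q S L := by
  unfold Phi
  rw [← Finset.sum_range_reflect]
  apply Finset.sum_congr rfl
  intro a ha
  rw [← Finset.sum_range_reflect]
  apply Finset.sum_congr rfl
  intro b hb
  have ha2 := Finset.mem_range.mp ha
  have hb2 := Finset.mem_range.mp hb
  have e1 : L + 1 - 1 - a = L - a := by omega
  have e2 : L + 1 - 1 - b = L - b := by omega
  rw [e1, e2]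
  have e3 : min (L - a) (L - b) = L - max a b := by omega
  have e4 : max (L - a) (L - b) = L - min a b := by omega
  have e5 : L - min a b - (L - max a b) = max a b - min a b := by omega
  have e6 : L - (L - min a b) = min a b := by omega
  have e7 : (-1 : R) ^ (L - a + (L - b)) = (-1) ^ (a + b) := by
    have h1 : (-1 : R) ^ (L - a + (L - b)) * (-1) ^ (a + b) = 1 := by
      rw [← pow_add]
      have h2 : L - a + (L - b) + (a + b) = 2 * L := by omega
      rw [h2, pow_mul]
      simp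
    have h3 : (-1 : R) ^ (a + b) * (-1) ^ (a + b) = 1 := by
      rw [← pow_add, ← two_mul, pow_mul]
      simp
    calc (-1 : R) ^ (L - a + (L - b))
        = (-1) ^ (L - a + (L - b)) * ((-1) ^ (a + b) * (-1) ^ (a + b)) := by rw [h3, mul_one]
      _ = ((-1) ^ (L - a + (L - b)) * (-1) ^ (a + b)) * (-1) ^ (a + b) := by ring
      _ = (-1) ^ (a + b) := by rw [h1, one_mul]
  rw [e3, e4, e5, e6, e7]
  ring

theorem Phi_comp (P Q S T : ℚ[X]) (L : ℕ) :
    (Phi P Q S L).comp T = Phi (P.comp T) (Q.comp T) (S.comp T) L := by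
  unfold Phi
  rw [Polynomial.sum_comp]
  apply Finset.sum_congr rfl
  intro a _
  rw [Polynomial.sum_comp]
  apply Finset.sum_congr rfl
  intro b _
  simp [mul_comp, pow_comp]

theorem Bs_comp (P Q T : ℚ[X]) (n : ℕ) :
    (Bs P Q n).comp T = Bs (P.comp T) (Q.comp T) n := by
  induction n with
  | zero => simp [Bs]
  | succ n ih => rw [Bs_succ, Bs_succ, sub_comp, mul_comp, pow_comp, ih]

theorem Bs_eval (P Q : ℚ[X]) (x : ℚ) (n : ℕ) :
    (Bs P Q n).eval x = Bs (P.eval x) (Q.eval x) n := by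
  induction n with
  | zero => simp [Bs]
  | succ n ih => rw [Bs_succ, Bs_succ, eval_sub, eval_mul, eval_pow, ih]

theorem Bs_zero_left (q : ℚ) (n : ℕ) : Bs 0 q n = (-q) ^ n := by
  induction n with
  | zero => simp [Bs]
  | succ n ih =>
    rw [Bs_succ, ih, pow_succ (-q) n]
    ring

/-- The three shifts of x^h. -/
noncomputable def PP (h : ℕ) : ℚ[X] := (X + 1) ^ h

noncomputable def QQ (h : ℕ) : ℚ[X] := X ^ h

noncomputable def SS' (h : ℕ) : ℚ[X] := (X - 1) ^ h

theorem Phi_even (h L : ℕ) (hh : Even h) :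
    (Phi (PP h) (QQ h) (SS' h) L).comp (-X) = Phi (PP h) (QQ h) (SS' h) L := by
  rw [Phi_comp]
  have e1 : (PP h).comp (-X) = SS' h := by
    unfold PP SS'
    rw [pow_comp, add_comp, X_comp, one_comp]
    have : (-X + 1 : ℚ[X]) = -(X - 1) := by ring
    rw [this, hh.neg_pow]
  have e2 : (QQ h).comp (-X) = QQ h := by
    unfold QQ
    rw [pow_comp, X_comp, hh.neg_pow]
  have e3 : (SS' h).comp (-X) = PP h := by
    unfold PP SS'
    rw [pow_comp, sub_comp, X_comp, one_comp]
    have : (-X - 1 : ℚ[X]) = -(X + 1) := by ring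
    rw [this, hh.neg_pow]
  rw [e1, e2, e3, Phi_swap]

theorem EE_Phi (h L : ℕ) (hh : Even h) (h0 : h ≠ 0) (hL : Even L) :
    EE ((PP h - SS' h) * Phi (PP h) (QQ h) (SS' h) L) = -2 := by
  rw [Phi_id, hL.neg_one_pow, one_mul]
  have e1 : (PP h).comp (X - 1) = QQ h := by
    unfold PP QQ
    rw [pow_comp, add_comp, X_comp, one_comp, sub_add_cancel]
  have e2 : (QQ h).comp (X - 1) = SS' h := by
    unfold QQ SS'
    rw [pow_comp, X_comp]
  have e3 : ((PP h - QQ h) * Bs (PP h) (QQ h) L).comp (X - 1)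
      = (QQ h - SS' h) * Bs (QQ h) (SS' h) L := by
    rw [mul_comp, sub_comp, Bs_comp, e1, e2]
  have e4 : (((PP h - QQ h) * Bs (PP h) (QQ h) L).comp (X - 1)).comp (X + 1)
      = (PP h - QQ h) * Bs (PP h) (QQ h) L := by
    rw [comp_assoc]
    simp
  have h1 := EE_tel (((PP h - QQ h) * Bs (PP h) (QQ h) L).comp (X - 1))
  rw [e4, e3] at h1
  rw [add_comm, h1]
  have e5 : ((QQ h - SS' h) * Bs (QQ h) (SS' h) L).eval 0 = -1 := by
    rw [eval_mul, Bs_eval, eval_sub]
    have q0 : (QQ h).eval 0 = 0 := by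
      unfold QQ
      rw [eval_pow, eval_X, zero_pow h0]
    have s0 : (SS' h).eval 0 = 1 := by
      unfold SS'
      rw [eval_pow, eval_sub, eval_X, eval_one, zero_sub, hh.neg_one_pow]
    rw [q0, s0, Bs_zero_left, hL.neg_one_pow]
    norm_num
  rw [e5]
  norm_num

/-- The value of the functional on the wave polynomial. -/
theorem EE_wave (h L : ℕ) (hh : Even h) (h0 : h ≠ 0) (hL : Even L) (g : ℚ[X])
    (hg : g.comp (-X) = g - C (1 / (h : ℚ)) * (PP h - SS' h)) (hg0 : g.eval 0 = 0) :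
    EE (g * Phi (PP h) (QQ h) (SS' h) L) = -1 / (h : ℚ) := by
  have hq : (h : ℚ) ≠ 0 := by exact_mod_cast h0
  have e0 : (PP h - SS' h).comp (-X) = -(PP h - SS' h) := by
    unfold PP SS'
    rw [sub_comp, pow_comp, pow_comp, add_comp, sub_comp, X_comp, one_comp]
    have a1 : (-X + 1 : ℚ[X]) = -(X - 1) := by ring
    have a2 : (-X - 1 : ℚ[X]) = -(X + 1) := by ring
    rw [a1, a2, hh.neg_pow, hh.neg_pow]
    ring
  have e1 : (g - C (1 / (2 * (h : ℚ))) * (PP h - SS' h)).comp (-X)
      = g - C (1 / (2 * (h : ℚ))) * (PP h - SS' h) := by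
    rw [sub_comp, mul_comp, C_comp, e0, hg]
    have : (C (1 / (h : ℚ)) : ℚ[X]) = 2 * C (1 / (2 * (h : ℚ))) := by
      have h2 : (1 / (h : ℚ)) = 2 * (1 / (2 * h)) := by field_simp
      rw [h2, C_mul]
      congr 1
    rw [this]
    ring
  have e2 : g * Phi (PP h) (QQ h) (SS' h) L
      = (g - C (1 / (2 * (h : ℚ))) * (PP h - SS' h)) * Phi (PP h) (QQ h) (SS' h) L
        + C (1 / (2 * (h : ℚ))) * ((PP h - SS' h) * Phi (PP h) (QQ h) (SS' h) L) := by
    ring
  have e3 : (PP h - SS' h).eval 0 = 0 := by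
    unfold PP SS'
    rw [eval_sub, eval_pow, eval_pow, eval_add, eval_sub, eval_X, eval_one, zero_add, zero_sub,
      one_pow, hh.neg_one_pow, sub_self]
  have e4 : EE (C (1 / (2 * (h : ℚ))) * ((PP h - SS' h) * Phi (PP h) (QQ h) (SS' h) L))
      = 1 / (2 * (h : ℚ)) * -2 := by
    rw [← Polynomial.smul_eq_C_mul, map_smul, EE_Phi h L hh h0 hL, smul_eq_mul]
  rw [e2, map_add, EE_even, e4]
  · rw [eval_mul, eval_sub, eval_mul, hg0, e3]
    simp only [mul_zero, sub_zero, zero_mul, zero_add]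
    field_simp
  · rw [mul_comp, e1, Phi_even h L hh]

end Pool.Agent.H48.PM
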