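import Pool.Agent.H48.PM.Final

set_option autoImplicit false

namespace Pool.Agent.H48.PM

open Finset Polynomial

/-- A board with A + 1 lines on A rows, with an empty row added. -/
theorem perm_sq (A k : ℕ) (hq : QB A k) (hk : k ≤ A + 1) : Ex (A + 1) k := by
  obtain ⟨cs, hl, h01, hodd, hE⟩ := hq
  obtain ⟨c0, ct, rfl⟩ : ∃ c0 ct, cs = c0 :: ct := by
    cases cs with
    | nil => simp at hl
    | cons c0 ct => exact ⟨c0, ct, rfl⟩
  have hlen : ((c0 :: ct).map (gl A)).length = A + 1 := by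
    rw [List.length_map, hl]
  have h01' : ∀ c ∈ (c0 :: ct).map (gl A), ∀ i, c i = 0 ∨ c i = 1 := gl_01 A _ h01
  have hP : Rp ((c0 :: ct).map (gl A)) (range (A + 1)) = Rp (c0 :: ct) (range A) := by
    apply Polynomial.funext
    intro x
    rw [eval_Rp, eval_Rp, Finset.range_add_one, Rf_insert_zero A _ _ _ _ (by simp),
      Rf_gl A _ _ (Finset.Subset.refl _)]
    intro c hc
    obtain ⟨d, _, rfl⟩ := List.mem_map.mp hc
    simp [gl]
  have hPf : Pf ((c0 :: ct).map (gl A)) (range (A + 1))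
      = (-2) ^ (A + 1) * EE (Rp (c0 :: ct) (range A)) := by
    rw [Pf_eq EE isE_EE _ _ (by rw [Finset.card_range, hlen]), hlen, hP]
  have hval : Pf ((c0 :: ct).map (gl A)) (range (A + 1)) = 2 ^ (A + 1 - k) ∨
      Pf ((c0 :: ct).map (gl A)) (range (A + 1)) = -2 ^ (A + 1 - k) := by
    have h2 : (2 : ℚ) ^ (A + 1) = 2 ^ (A + 1 - k) * 2 ^ k := by
      rw [← pow_add, Nat.sub_add_cancel hk]
    have h3 : (2 : ℚ) ^ k ≠ 0 := by positivity
    have h4 : ((-2 : ℚ)) ^ (A + 1) = (-1) ^ (A + 1) * 2 ^ (A + 1) := by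
      rw [← mul_pow]
      norm_num
    rw [hPf, h4, h2]
    rcases neg_one_pow_eq_or ℚ (A + 1) with h5 | h5 <;>
    rcases hE with h7 | h7 <;> rw [h5, h7]
    · left; field_simp
    · right; field_simp
    · right; field_simp
    · left; field_simp
  rcases hval with hv | hv
  · obtain ⟨M, hM, hp⟩ := exists_matrix (A + 1) _ hlen h01'
    refine ⟨M, hM, ?_⟩
    rw [hv] at hp
    exact_mod_cast hp
  · obtain ⟨M, hM, hp⟩ := exists_matrix (A + 1)
      ((fun i => 1 - gl A c0 i) :: ct.map (gl A)) (by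
        rw [← hlen]
        simp) (by
      intro c hc i
      rcases List.mem_cons.mp hc with rfl | hc
      · rcases h01' (gl A c0) (by simp) i with h | h
        · right
          show 1 - gl A c0 i = 1
          rw [h]
          norm_num
        · left
          show 1 - gl A c0 i = 0
          rw [h]
          norm_num
      · exact h01' c (by
          simp only [List.map_cons]
          exact List.mem_cons_of_mem _ hc) i)
    refine ⟨M, hM, ?_⟩
    have h8 : Pf ((fun i => 1 - gl A c0 i) :: ct.map (gl A)) (range (A + 1))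
        = -Pf ((c0 :: ct).map (gl A)) (range (A + 1)) := by
      simp only [List.map_cons]
      rw [Pf_cons, Pf_cons, ← Finset.sum_neg_distrib]
      apply Finset.sum_congr rfl
      intro i _
      ring
    rw [h8, hv, neg_neg] at hp
    exact_mod_cast hp

theorem ex_odd' (n : ℕ) (hn : n % 2 = 1) (h31 : n % 32 ≠ 31 ∨ n = 31) :
    Ex n (padicValNat 2 (n + 1)) := by
  rcases h31 with h | rfl
  · exact ex_odd n hn h
  · have e : padicValNat 2 (31 + 1) = 5 := by
      have e2 : 31 + 1 = 2 ^ 5 * (2 * 0 + 1) := by norm_num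
      rw [e2]
      exact padic_two 5 0
    rw [e]
    exact perm_sq 30 5 (qb_of Pool.Agent.H21.PM.q_board31) (by norm_num)

theorem final' (n : ℕ) (h1 : 1 ≤ n) :
    ∃ m : ℤ, IsLeast {p : ℤ | 0 < p ∧ ∃ M : Matrix (Fin n) (Fin n) ℤ,
        (∀ i j, M i j = 1 ∨ M i j = -1) ∧ M.permanent = p} m ∧
      2 ^ (n - Nat.log 2 (n + 1)) ≤ m ∧
      (n % 2 = 0 → m ≤ 2 ^ (n - min (Nat.log 2 n) 5)) ∧
      (n % 2 = 1 → (n % 32 ≠ 31 ∨ n = 31) → m ≤ 2 ^ (n - padicValNat 2 (n + 1))) := by
  obtain ⟨m, hm, hlow⟩ := least_exists n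
  have key : ∀ c, Ex n c → m ≤ 2 ^ (n - c) := by
    rintro c ⟨M, hM, hp⟩
    rw [← hp]
    exact hm.2 ⟨by rw [hp]; positivity, M, hM, rfl⟩
  exact ⟨m, hm, hlow, fun h => key _ (ex_even' n h h1), fun h h' => key _ (ex_odd' n h h')⟩

end Pool.Agent.H48.PM
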