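import Pool.Agent.H48.PM.Phi

set_option autoImplicit false

namespace Pool.Agent.H48.PM

open Finset Polynomial

/-! ### Invariance under permutations of the columns -/

theorem Rf_swap (a b : ℕ → ℚ) (cs : List (ℕ → ℚ)) (U : Finset ℕ) (x : ℚ) :
    Rf (a :: b :: cs) U x = Rf (b :: a :: cs) U x := by
  have key : ∀ c d : ℕ → ℚ, Rf (c :: d :: cs) U x
      = (∑ i ∈ U, ∑ j ∈ U.erase i, c i * (d j * Rf cs ((U.erase i).erase j) x))
        + x * (∑ i ∈ U, c i * Rf cs (U.erase i) (x - 1))
        + x * (∑ i ∈ U, d i * Rf cs (U.erase i) (x - 1))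
        + x * ((x - 1) * Rf cs U (x - 1 - 1)) := by
    intro c d
    rw [Rf_cons, Rf_cons]
    have h1 : ∀ i ∈ U, c i * Rf (d :: cs) (U.erase i) x
        = (∑ j ∈ U.erase i, c i * (d j * Rf cs ((U.erase i).erase j) x))
          + x * (c i * Rf cs (U.erase i) (x - 1)) := by
      intro i _
      rw [Rf_cons, mul_add, Finset.mul_sum]
      ring
    rw [Finset.sum_congr rfl h1, Finset.sum_add_distrib, ← Finset.mul_sum]
    ring
  rw [key, key]
  have h2 : (∑ i ∈ U, ∑ j ∈ U.erase i, a i * (b j * Rf cs ((U.erase i).erase j) x))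
      = ∑ j ∈ U, ∑ i ∈ U.erase j, b j * (a i * Rf cs ((U.erase j).erase i) x) := by
    rw [Finset.sum_comm' (t' := U) (s' := fun j => U.erase j)]
    · apply Finset.sum_congr rfl
      intro j _
      apply Finset.sum_congr rfl
      intro i _
      rw [Finset.erase_right_comm]
      ring
    · intro i j
      simp only [Finset.mem_erase]
      constructor
      · rintro ⟨h1, h2, h3⟩
        exact ⟨⟨fun h => h2 h.symm, h1⟩, h3⟩
      · rintro ⟨⟨h1, h2⟩, h3⟩
        exact ⟨h2, fun h => h1 h.symm, h3⟩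
  rw [h2]
  ring

theorem Rf_perm {l1 l2 : List (ℕ → ℚ)} (h : l1.Perm l2) :
    ∀ (U : Finset ℕ) (x : ℚ), Rf l1 U x = Rf l2 U x := by
  induction h with
  | nil => intro U x; rfl
  | cons c _ ih =>
    intro U x
    rw [Rf_cons, Rf_cons, ih U (x - 1)]
    congr 1
    apply Finset.sum_congr rfl
    intro i _
    rw [ih]
  | swap a b cs =>
    intro U x
    exact Rf_swap b a cs U x
  | trans _ _ ih1 ih2 =>
    intro U x
    rw [ih1, ih2]

/-! ### Threshold columns -/

/-- The column with cells in the first p rows. -/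
def th (p : ℕ) : ℕ → ℚ := fun i => if i < p then 1 else 0

/-- The thresholds a, a + 1, ..., a + k - 1. -/
def st (a k : ℕ) : List (ℕ → ℚ) := (List.range k).map (fun i => th (a + i))

theorem st_length (a k : ℕ) : (st a k).length = k := by
  simp [st]

theorem st_zero (a : ℕ) : st a 0 = [] := rfl

theorem st_last (a k : ℕ) : st a (k + 1) = st a k ++ [th (a + k)] := by
  simp [st, List.range_succ]

theorem st_first (a k : ℕ) : st a (k + 1) = th a :: st (a + 1) k := by
  unfold st
  rw [List.range_succ_eq_map, List.map_cons, List.map_map]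
  simp only [add_zero, List.cons.injEq, true_and]
  apply List.map_congr_left
  intro i _
  simp only [Function.comp_apply]
  congr 1
  omega

theorem st_add (a j k : ℕ) : st a (j + k) = st a j ++ st (a + j) k := by
  induction k with
  | zero => simp [st_zero]
  | succ k ih =>
    rw [← add_assoc, st_last, ih, st_last, List.append_assoc, add_assoc a j k]

theorem gr_th (p a : ℕ) : gr p (th a) = th (p + a) := by
  funext i
  unfold gr th
  by_cases h1 : i < p
  · have h2 : i < p + a := by omega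
    simp [h1, h2]
  · by_cases h2 : i < p + a
    · have h3 : i - p < a := by omega
      simp [h1, h2, h3]
    · have h3 : ¬ i - p < a := by omega
      simp [h1, h2, h3]

theorem gr_gr (a b : ℕ) (c : ℕ → ℚ) : gr a (gr b c) = gr (a + b) c := by
  funext i
  unfold gr
  by_cases h1 : i < a
  · have h2 : i < a + b := by omega
    simp [h1, h2]
  · by_cases h2 : i < a + b
    · have h3 : i - a < b := by omega
      simp [h1, h2, h3]
    · have h3 : ¬ i - a < b := by omega
      have h4 : i - a - b = i - (a + b) := by omega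
      simp [h1, h2, h3, h4]

theorem st_gr (p a k : ℕ) : (st a k).map (gr p) = st (p + a) k := by
  unfold st
  rw [List.map_map]
  apply List.map_congr_left
  intro i _
  simp only [Function.comp_apply]
  rw [gr_th]
  congr 1
  ring

theorem map_gr_gr (a b : ℕ) (D : List (ℕ → ℚ)) : (D.map (gr b)).map (gr a) = D.map (gr (a + b)) := by
  rw [List.map_map]
  apply List.map_congr_left
  intro c _
  exact gr_gr a b c

theorem th_01 (p i : ℕ) : th p i = 0 ∨ th p i = 1 := by
  unfold th
  split_ifs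
  · right; rfl
  · left; rfl

theorem st_01 (a k : ℕ) : ∀ c ∈ st a k, ∀ i, c i = 0 ∨ c i = 1 := by
  intro c hc i
  obtain ⟨j, _, rfl⟩ := List.mem_map.mp hc
  exact th_01 _ _

/-- A square block that is empty below row a, followed by columns that are full above. -/
theorem Rf_tri (a b : ℕ) (cs1 cs2 : List (ℕ → ℚ)) (hl : cs1.length = a)
    (h0 : ∀ c ∈ cs1, ∀ i, a ≤ i → c i = 0) (x : ℚ) :
    Rf (cs1 ++ cs2.map (gr a)) (range (a + b)) x = Rf cs1 (range a) x * Rf cs2 (range b) x := by
  have hd := disj_map a b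
  rw [Finset.range_add_eq_union, Rf_append _ _ _ _ x hd, hl, Finset.card_range]
  · have e : x + (a : ℚ) - a = x := by ring
    rw [e, Rf_gr]
  · intro c hc i hi
    obtain ⟨j, _, hij⟩ := Finset.mem_map.mp hi
    simp only [addLeftEmbedding_apply] at hij
    exact h0 c hc i (by omega)
  · intro c hc i hi
    obtain ⟨d, _, rfl⟩ := List.mem_map.mp hc
    have : i < a := Finset.mem_range.mp hi
    simp [gr, this]

theorem st_zero_above (a k b : ℕ) (h : a + k ≤ b + 1) : ∀ c ∈ st a k, ∀ i, b ≤ i → c i = 0 := by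
  intro c hc i hi
  obtain ⟨j, hj, rfl⟩ := List.mem_map.mp hc
  have hj2 := List.mem_range.mp hj
  unfold th
  have : ¬ i < a + j := by omega
  simp [this]

theorem Rf_st1 (M : ℕ) (x : ℚ) : Rf (st 1 M) (range M) x = (x + 1) ^ M := by
  induction M with
  | zero => simp [st_zero, Rf]
  | succ M ih =>
    have e1 : st 1 (M + 1) = [th 1] ++ (st 1 M).map (gr 1) := by
      rw [st_first, st_gr]
      rfl
    have e2 : M + 1 = 1 + M := by ring
    rw [e1, e2, Rf_tri 1 M _ _ (by simp) (by
      intro c hc i hi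
      rw [List.mem_singleton] at hc
      subst hc
      have : ¬ i < 1 := by omega
      simp [th, this]), ih]
    have e3 : Rf [th 1] (range 1) x = x + 1 := by
      simp [Rf, th]
      ring
    rw [e3]
    ring

theorem Rf_st0 (M : ℕ) (x : ℚ) : Rf (st 0 M) (range M) x = x ^ M := by
  induction M with
  | zero => simp [st_zero, Rf]
  | succ M ih =>
    have e1 : st 0 (M + 1) = [th 0] ++ (st 0 M).map (gr 1) := by
      rw [st_first, st_gr]
      rfl
    have e2 : M + 1 = 1 + M := by ring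
    rw [e1, e2, Rf_tri 1 M _ _ (by simp) (by
      intro c hc i hi
      rw [List.mem_singleton] at hc
      subst hc
      simp [th]), ih]
    have e3 : Rf [th 0] (range 1) x = x := by
      simp [Rf, th]
    rw [e3]
    ring

theorem Rf_th0 (cs : List (ℕ → ℚ)) (U : Finset ℕ) (x : ℚ) :
    Rf (th 0 :: cs) U x = x * Rf cs U (x - 1) := by
  rw [Rf_cons]
  have h : ∑ i ∈ U, th 0 i * Rf cs (U.erase i) x = 0 := by
    apply Finset.sum_eq_zero
    intro i _
    simp [th]
  rw [h, zero_add]

/-- The staircase with two more thresholds and a tail. -/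
theorem Rf_two (p r M k : ℕ) (D : List (ℕ → ℚ)) (x : ℚ) :
    Rf (th p :: th (p + r) :: (st 1 (p + r + M) ++ D.map (gr (p + r + M))))
        (range (p + (r + (M + k)))) x
      = (x + 1) ^ p * (x ^ r * (x * ((x - 1) * ((x - 1) ^ M * Rf D (range k) (x - 2))))) := by
  have hperm : (th p :: th (p + r) :: (st 1 (p + r + M) ++ D.map (gr (p + r + M)))).Perm
      (st 1 p ++ (st 0 r ++ (th 0 :: th 0 :: (st 1 M ++ D.map (gr M))).map (gr r)).map (gr p)) := by
    have e1 : (st 0 r ++ (th 0 :: th 0 :: (st 1 M ++ D.map (gr M))).map (gr r)).map (gr p)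
        = st p r ++ (th (p + r) :: th (p + r) :: (st (p + r + 1) M ++ D.map (gr (p + r + M)))) := by
      have a1 : p + (r + 1) = p + r + 1 := by ring
      have a2 : p + (r + M) = p + r + M := by ring
      simp only [List.map_append, List.map_cons, map_gr_gr, st_gr, gr_th, add_zero, a1, a2]
    have e2 : st 1 (p + r + M) = st 1 p ++ (st (p + 1) r ++ st (p + r + 1) M) := by
      have a1 : 1 + p = p + 1 := by ring
      have a2 : p + 1 + r = p + r + 1 := by ring
      rw [add_assoc, st_add, st_add, a1, a2]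
    have e3 : th p :: st (p + 1) r = st p r ++ [th (p + r)] := by
      rw [← st_first, st_last]
    rw [e1, e2, ← Multiset.coe_eq_coe]
    have e4 : ((th p :: st (p + 1) r : List (ℕ → ℚ)) : Multiset (ℕ → ℚ))
        = ((st p r ++ [th (p + r)] : List (ℕ → ℚ)) : Multiset (ℕ → ℚ)) := by rw [e3]
    have hc : ∀ (a : ℕ → ℚ) (l : List (ℕ → ℚ)), ((a :: l : List (ℕ → ℚ)) : Multiset (ℕ → ℚ))
        = {a} + (l : Multiset (ℕ → ℚ)) := fun a l => by
      rw [← Multiset.cons_coe, Multiset.singleton_add]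
    have ha : ∀ l1 l2 : List (ℕ → ℚ), ((l1 ++ l2 : List (ℕ → ℚ)) : Multiset (ℕ → ℚ))
        = (l1 : Multiset (ℕ → ℚ)) + (l2 : Multiset (ℕ → ℚ)) := fun l1 l2 =>
      (Multiset.coe_add l1 l2).symm
    rw [hc, ha, hc, Multiset.coe_nil, add_zero] at e4
    rw [hc, hc, ha, ha, ha, ha, ha, hc, hc, ha]
    have e5 : ∀ a b c d e f : Multiset (ℕ → ℚ), a + b = c + f →
        a + (f + (d + (b + e))) = d + (c + (f + (f + e))) := by
      intro a b c d e f h
      calc a + (f + (d + (b + e))) = (a + b) + (f + d + e) := by abel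
        _ = (c + f) + (f + d + e) := by rw [h]
        _ = d + (c + (f + (f + e))) := by abel
    have e6 := e5 _ _ _ (↑(st 1 p)) (↑(st (p + r + 1) M) + ↑(D.map (gr (p + r + M)))) _ e4
    rw [← e6]
    abel
  rw [Rf_perm hperm, Rf_tri p (r + (M + k)) _ _ (st_length 1 p)
      (st_zero_above 1 p p (by omega)), Rf_st1,
    Rf_tri r (M + k) _ _ (st_length 0 r) (st_zero_above 0 r r (by omega)), Rf_st0,
    Rf_th0, Rf_th0, Rf_tri M k _ _ (st_length 1 M) (st_zero_above 1 M M (by omega)), Rf_st1]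
  have e1 : x - 1 - 1 = x - 2 := by ring
  have e2 : x - 2 + 1 = x - 1 := by ring
  rw [e1, e2]

/-! ### The wave column -/

theorem Pf_lin (cs : List (ℕ → ℚ)) (U : Finset ℕ) (s : Finset ℕ) (c : ℕ → ℚ) (ε : ℕ → ℚ)
    (d : ℕ → ℕ → ℚ) (h : ∀ i ∈ U, 1 - 2 * c i = ∑ a ∈ s, ε a * (1 - 2 * d a i)) :
    Pf (c :: cs) U = ∑ a ∈ s, ε a * Pf (d a :: cs) U := by
  have h1 : ∀ a ∈ s, ε a * Pf (d a :: cs) U
      = ∑ i ∈ U, ε a * ((1 - 2 * d a i) * Pf cs (U.erase i)) := by
    intro a _
    rw [Pf_cons, Finset.mul_sum]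
  rw [Finset.sum_congr rfl h1, Finset.sum_comm, Pf_cons]
  apply Finset.sum_congr rfl
  intro i hi
  rw [h i hi, Finset.sum_mul]
  apply Finset.sum_congr rfl
  intro a _
  ring

theorem Pf_lin2 (cs : List (ℕ → ℚ)) (U : Finset ℕ) (s : Finset ℕ) (c : ℕ → ℚ) (ε : ℕ → ℚ)
    (d : ℕ → ℕ → ℚ) (h : ∀ i ∈ U, 1 - 2 * c i = ∑ a ∈ s, ε a * (1 - 2 * d a i)) :
    Pf (c :: c :: cs) U
      = ∑ a ∈ s, ∑ b ∈ s, ε a * ε b * Pf (d a :: d b :: cs) U := by
  rw [Pf_lin (c :: cs) U s c ε d h]
  apply Finset.sum_congr rfl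
  intro a _
  have h1 : Pf (d a :: c :: cs) U = ∑ b ∈ s, ε b * Pf (d a :: d b :: cs) U := by
    have h2 : ∀ i ∈ U, (1 - 2 * d a i) * Pf (c :: cs) (U.erase i)
        = ∑ b ∈ s, ε b * ((1 - 2 * d a i) * Pf (d b :: cs) (U.erase i)) := by
      intro i _
      rw [Pf_lin cs (U.erase i) s c ε d (fun j hj => h j (Finset.mem_of_mem_erase hj)),
        Finset.mul_sum]
      apply Finset.sum_congr rfl
      intro b _
      ring
    rw [Pf_cons, Finset.sum_congr rfl h2, Finset.sum_comm]
    apply Finset.sum_congr rfl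
    intro b _
    rw [Pf_cons, Finset.mul_sum]
  rw [h1, Finset.mul_sum]
  apply Finset.sum_congr rfl
  intro b _
  ring

/-- The wave column: cells in the rows of the odd blocks of length h. -/
def wv (h : ℕ) : ℕ → ℚ := fun i => if (i / h) % 2 = 1 then 1 else 0

theorem wv_01 (h i : ℕ) : wv h i = 0 ∨ wv h i = 1 := by
  unfold wv
  split_ifs
  · right; rfl
  · left; rfl

theorem alt_sum (b N : ℕ) :
    ∑ a ∈ range N, (-1 : ℚ) ^ a * (1 - 2 * (if b < a then 1 else 0))
      = if N ≤ b + 1 then (1 - (-1) ^ N) / 2 else 1 + (-1) ^ b - (1 - (-1) ^ N) / 2 := by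
  induction N with
  | zero => simp
  | succ N ih =>
    rw [Finset.sum_range_succ, ih]
    rcases Nat.lt_trichotomy N (b + 1) with h | h | h
    · have h1 : N ≤ b + 1 := by omega
      have h2 : N + 1 ≤ b + 1 := by omega
      have h3 : ¬ b < N := by omega
      rw [if_pos h1, if_pos h2, if_neg h3, pow_succ]
      ring
    · have h1 : N ≤ b + 1 := by omega
      have h2 : ¬ N + 1 ≤ b + 1 := by omega
      have h3 : b < N := by omega
      rw [if_pos h1, if_neg h2, if_pos h3, h, pow_succ, pow_succ]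
      ring
    · have h1 : ¬ N ≤ b + 1 := by omega
      have h2 : ¬ N + 1 ≤ b + 1 := by omega
      have h3 : b < N := by omega
      rw [if_neg h1, if_neg h2, if_pos h3, pow_succ]
      ring

theorem wv_sum (h L : ℕ) (h0 : 0 < h) (hL : Even L) (i : ℕ) (hi : i / h ≤ L) :
    1 - 2 * wv h i = ∑ a ∈ range (L + 1), (-1 : ℚ) ^ a * (1 - 2 * th (h * a) i) := by
  have h1 : ∀ a ∈ range (L + 1), (-1 : ℚ) ^ a * (1 - 2 * th (h * a) i)
      = (-1 : ℚ) ^ a * (1 - 2 * (if i / h < a then 1 else 0)) := by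
    intro a _
    unfold th
    have h2 : i < h * a ↔ i / h < a := by
      rw [Nat.div_lt_iff_lt_mul h0, mul_comm]
    simp only [h2]
  rw [Finset.sum_congr rfl h1, alt_sum]
  have hL1 : (-1 : ℚ) ^ (L + 1) = -1 := by
    rw [pow_succ, hL.neg_one_pow, one_mul]
  have hb : 1 - 2 * wv h i = (-1 : ℚ) ^ (i / h) := by
    unfold wv
    rcases Nat.mod_two_eq_zero_or_one (i / h) with h2 | h2
    · have h3 : Even (i / h) := Nat.even_iff.mpr h2
      rw [h3.neg_one_pow, if_neg (by omega)]
      ring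
    · have h3 : Odd (i / h) := Nat.odd_iff.mpr h2
      rw [h3.neg_one_pow, if_pos h2]
      ring
  rw [hb, hL1]
  by_cases h4 : L + 1 ≤ i / h + 1
  · have h5 : i / h = L := by omega
    rw [if_pos h4, h5, hL.neg_one_pow]
    ring
  · rw [if_neg h4]
    ring

theorem Rf_ab (h L t k : ℕ) (D : List (ℕ → ℚ)) (a b : ℕ) (ha : a ≤ L) (hb : b ≤ L) (x : ℚ) :
    Rf (th (h * a) :: th (h * b) :: (st 1 (h * L + t) ++ D.map (gr (h * L + t))))
        (range (h * L + t + k)) x
      = x * (x - 1) ^ (t + 1) * Rf D (range k) (x - 2) * (((x + 1) ^ h) ^ min a b *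
        (x ^ h) ^ (max a b - min a b) * ((x - 1) ^ h) ^ (L - max a b)) := by
  have key : ∀ a b : ℕ, a ≤ b → b ≤ L →
      Rf (th (h * a) :: th (h * b) :: (st 1 (h * L + t) ++ D.map (gr (h * L + t))))
        (range (h * L + t + k)) x
      = x * (x - 1) ^ (t + 1) * Rf D (range k) (x - 2) * (((x + 1) ^ h) ^ a *
        (x ^ h) ^ (b - a) * ((x - 1) ^ h) ^ (L - b)) := by
    intro a b hab hbL
    obtain ⟨c, rfl⟩ := Nat.exists_eq_add_of_le hab
    obtain ⟨d, rfl⟩ := Nat.exists_eq_add_of_le hbL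
    have e1 : h * (a + c) = h * a + h * c := by ring
    have e2 : h * (a + c + d) + t = h * a + h * c + (h * d + t) := by ring
    have e3 : h * (a + c + d) + t + k = h * a + (h * c + ((h * d + t) + k)) := by ring
    rw [e3, e2, e1, Rf_two]
    have e4 : a + c - a = c := by omega
    have e5 : a + c + d - (a + c) = d := by omega
    rw [e4, e5]
    ring
  rcases le_total a b with hab | hab
  · rw [key a b hab hb, min_eq_left hab, max_eq_right hab]
  · rw [Rf_swap, key b a hab ha, min_eq_right hab, max_eq_left hab]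

/-- The core polynomial. -/
noncomputable def GG' (t k : ℕ) (D : List (ℕ → ℚ)) : ℚ[X] :=
  X * (X - 1) ^ (t + 1) * (Rp D (range k)).comp (X - 2)

theorem GG'_eval (t k : ℕ) (D : List (ℕ → ℚ)) (x : ℚ) :
    (GG' t k D).eval x = x * (x - 1) ^ (t + 1) * Rf D (range k) (x - 2) := by
  unfold GG'
  simp only [eval_mul, eval_pow, eval_sub, eval_X, eval_one, eval_comp, eval_Rp, eval_ofNat]

/-- The wave theorem. -/
theorem Pf_wave (h L t k : ℕ) (hh : Even h) (hL : Even L) (htk : t + k + 1 = h)
    (D : List (ℕ → ℚ)) (hD : D.length + 2 = k)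
    (hg : ∀ x : ℚ, x * (x - 1) ^ (t + 1) * Rf D (range k) (x - 2)
      - (-x) * (-x - 1) ^ (t + 1) * Rf D (range k) (-x - 2) = ((x + 1) ^ h - (x - 1) ^ h) / h) :
    Pf (wv h :: wv h :: (st 1 (h * L + t) ++ D.map (gr (h * L + t)))) (range (h * L + t + k))
      = (-2) ^ (h * L + t + k) * (-1 / h) := by
  have h0 : 0 < h := by omega
  have hw : ∀ i ∈ range (h * L + t + k), 1 - 2 * wv h i
      = ∑ a ∈ range (L + 1), (fun a => (-1 : ℚ) ^ a) a * (1 - 2 * (fun a => th (h * a)) a i) := by
    intro i hi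
    have hi2 := Finset.mem_range.mp hi
    refine wv_sum h L h0 hL i ?_
    have h1 : i / h < L + 1 := by
      rw [Nat.div_lt_iff_lt_mul h0]
      have : (L + 1) * h = h * L + h := by ring
      omega
    omega
  rw [Pf_lin2 _ _ _ _ _ _ hw]
  have hlen : ∀ a b : ℕ, (th (h * a) :: th (h * b) ::
      (st 1 (h * L + t) ++ D.map (gr (h * L + t)))).length = h * L + t + k := by
    intro a b
    simp only [List.length_cons, List.length_append, st_length, List.length_map]
    omega
  have h1 : ∀ a ∈ range (L + 1), ∀ b ∈ range (L + 1),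
      (fun a => (-1 : ℚ) ^ a) a * (fun a => (-1 : ℚ) ^ a) b *
        Pf ((fun a => th (h * a)) a :: (fun a => th (h * a)) b ::
          (st 1 (h * L + t) ++ D.map (gr (h * L + t)))) (range (h * L + t + k))
      = (-2) ^ (h * L + t + k) * EE (GG' t k D * ((-1) ^ (a + b) * (PP h ^ min a b *
        QQ h ^ (max a b - min a b) * SS' h ^ (L - max a b)))) := by
    intro a ha b hb
    have ha2 : a ≤ L := by
      have := Finset.mem_range.mp ha
      omega
    have hb2 : b ≤ L := by
      have := Finset.mem_range.mp hb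
      omega
    have e1 : Rp (th (h * a) :: th (h * b) :: (st 1 (h * L + t) ++ D.map (gr (h * L + t))))
        (range (h * L + t + k)) = GG' t k D * (PP h ^ min a b *
        QQ h ^ (max a b - min a b) * SS' h ^ (L - max a b)) := by
      apply Polynomial.funext
      intro x
      rw [eval_Rp, Rf_ab h L t k D a b ha2 hb2, eval_mul, GG'_eval]
      congr 1
      simp only [PP, QQ, SS', eval_mul, eval_pow, eval_sub, eval_add, eval_X, eval_one]
    have e2 : GG' t k D * ((-1) ^ (a + b) * (PP h ^ min a b *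
        QQ h ^ (max a b - min a b) * SS' h ^ (L - max a b)))
        = ((-1 : ℚ) ^ (a + b)) • (GG' t k D * (PP h ^ min a b *
        QQ h ^ (max a b - min a b) * SS' h ^ (L - max a b))) := by
      rw [Polynomial.smul_eq_C_mul, C_pow, C_neg, C_1]
      ring
    show (-1 : ℚ) ^ a * (-1 : ℚ) ^ b * Pf (th (h * a) :: th (h * b) ::
          (st 1 (h * L + t) ++ D.map (gr (h * L + t)))) (range (h * L + t + k)) = _
    rw [Pf_eq EE isE_EE _ _ (by rw [Finset.card_range, hlen]), hlen, e1, e2, map_smul,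
      smul_eq_mul, pow_add]
    ring
  rw [Finset.sum_congr rfl (fun a ha => Finset.sum_congr rfl (h1 a ha))]
  have h2 : GG' t k D * Phi (PP h) (QQ h) (SS' h) L
      = ∑ a ∈ range (L + 1), ∑ b ∈ range (L + 1), GG' t k D * ((-1) ^ (a + b) *
        (PP h ^ min a b * QQ h ^ (max a b - min a b) * SS' h ^ (L - max a b))) := by
    unfold Phi
    rw [Finset.mul_sum]
    apply Finset.sum_congr rfl
    intro a _
    rw [Finset.mul_sum]
  have h3 := EE_wave h L hh (by omega) hL (GG' t k D) (by
    apply Polynomial.funext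
    intro x
    have h4 := hg x
    rw [eval_comp, eval_sub, eval_mul, eval_C, eval_sub, GG'_eval]
    have e1 : (-X : ℚ[X]).eval x = -x := by simp
    have e2 : (PP h).eval x = (x + 1) ^ h := by simp [PP]
    have e3 : (SS' h).eval x = (x - 1) ^ h := by simp [SS']
    rw [e1, e2, e3, GG'_eval]
    linear_combination -h4) (by
    rw [GG'_eval]
    ring)
  rw [h2, map_sum] at h3
  simp only [map_sum] at h3
  rw [← h3, Finset.mul_sum]
  apply Finset.sum_congr rfl
  intro a _
  rw [Finset.mul_sum]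

/-- The wave theorem for matrices. -/
theorem perm_wave (h L t k j : ℕ) (hh : Even h) (hL : Even L) (htk : t + k + 1 = h)
    (hj : h = 2 ^ j)
    (D : List (ℕ → ℚ)) (hD : D.length + 2 = k) (D01 : ∀ c ∈ D, ∀ i, c i = 0 ∨ c i = 1)
    (hg : ∀ x : ℚ, x * (x - 1) ^ (t + 1) * Rf D (range k) (x - 2)
      - (-x) * (-x - 1) ^ (t + 1) * Rf D (range k) (-x - 2) = ((x + 1) ^ h - (x - 1) ^ h) / h) :
    ∃ M : Matrix (Fin (h * L + t + k)) (Fin (h * L + t + k)) ℤ,
      (∀ i j, M i j = 1 ∨ M i j = -1) ∧ M.permanent = 2 ^ (h * L + t + k - j) := by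
  obtain ⟨M, hM, hp⟩ := exists_matrix (h * L + t + k)
    (wv h :: wv h :: (st 1 (h * L + t) ++ D.map (gr (h * L + t)))) (by
      simp only [List.length_cons, List.length_append, st_length, List.length_map]
      omega) (by
      intro c hc i
      rcases List.mem_cons.mp hc with rfl | hc
      · exact wv_01 h i
      rcases List.mem_cons.mp hc with rfl | hc
      · exact wv_01 h i
      rcases List.mem_append.mp hc with hc | hc
      · exact st_01 _ _ c hc i
      · exact gr_01 _ D D01 c hc i)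
  refine ⟨M, hM, ?_⟩
  rw [Pf_wave h L t k hh hL htk D hD hg] at hp
  have hodd : Odd (h * L + t + k) := by
    obtain ⟨c, hc⟩ := hh.mul_right L
    obtain ⟨d, hd⟩ := hh
    exact ⟨c + d - 1, by omega⟩
  have hjn : j ≤ h * L + t + k := by
    have h1 : j < 2 ^ j := Nat.lt_two_pow_self
    omega
  have hq : (h : ℚ) = 2 ^ j := by
    rw [hj]
    push_cast
    ring
  have hq0 : (2 : ℚ) ^ j ≠ 0 := by positivity
  rw [hodd.neg_pow, hq] at hp
  have h2 : (2 : ℚ) ^ (h * L + t + k) = 2 ^ (h * L + t + k - j) * 2 ^ j := by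
    rw [← pow_add, Nat.sub_add_cancel hjn]
  have h3 : ((M.permanent : ℤ) : ℚ) = 2 ^ (h * L + t + k - j) := by
    rw [hp, h2]
    field_simp
  exact_mod_cast h3

end Pool.Agent.H48.PM
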